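import Pool.Agent.H530R3.Hole.Labels

/-!
# Two vertices on a common hole: from a hole to a satisfying assignment
-/

namespace Pool.Agent.H530R3.Hole

open Pool.Agent.NPC
open Pool.Agent.H622R2 (Lit Cl3)

variable {n m : ℕ} {cl : ℕ → ℕ → Lit}

/-- The vertex set of a hole through both special vertices. -/
structure HoleSet (n m : ℕ) (cl : ℕ → ℕ → Lit) (S : Set Lb) : Prop where
  sub : S ⊆ Val n m cl
  hX : vX ∈ S
  deg : ∀ v ∈ S, ∃ a ∈ S, ∃ b ∈ S, a ≠ b ∧ R v a ∧ R v b ∧ ∀ w ∈ S, R v w → w = a ∨ w = b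
  conn : ∀ T : Set Lb, T ⊆ S → vX ∈ T → (∀ v ∈ T, ∀ w ∈ S, R v w → w ∈ T) → vY n (n + m) ∈ T

theorem HoleSet.two {S : Set Lb} (H : HoleSet n m cl S) {v a b : Lb} (hv : v ∈ S) (ha : a ∈ S)
    (hb : b ∈ S) (hab : a ≠ b) (h1 : R v a) (h2 : R v b) : ∀ w ∈ S, R v w → w = a ∨ w = b := by
  obtain ⟨x, hx, y, hy, hxy, hx', hy', h⟩ := H.deg v hv
  intro w hw hvw
  rcases h a ha h1 with rfl | rfl <;> rcases h b hb h2 with rfl | rfl <;>
    rcases h w hw hvw with rfl | rfl <;> simp_all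

theorem HoleSet.snd {S : Set Lb} (H : HoleSet n m cl S) {v : Lb} (hv : v ∈ S) (a : Lb) :
    ∃ b ∈ S, R v b ∧ b ≠ a := by
  obtain ⟨x, hx, y, hy, hxy, hx', hy', h⟩ := H.deg v hv
  by_cases hxa : x = a
  · exact ⟨y, hy, hy', fun h => hxy (hxa.trans h.symm)⟩
  · exact ⟨x, hx, hx', hxa⟩

/-- the vertex after a layer -/
def ent (n m t i : ℕ) : Lb :=
  if (t = 0 ∧ i = n) ∨ (t = 1 ∧ i = n + m) then vY n (n + m) else vA t i
/-- the vertex before a layer -/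
def pre (t i : ℕ) : Lb := if i = 0 then vX else vB t (i - 1)

theorem pre_succ (t i : ℕ) : pre t (i + 1) = vB t i := by simp [pre]

theorem ent_of_lt {t i : ℕ} (h : i < n) : ent n m t i = vA t i := by
  unfold ent
  rw [if_neg]
  omega

theorem pre_ne_vO (t i t' i' p : ℕ) (l : Lit) (s : Bool) : pre t i ≠ vO t' i' p l s := by
  unfold pre
  split_ifs
  · exact vX_ne_vO _ _ _ _ _
  · exact vB_ne_vO _ _ _ _ _ _ _

theorem nbrX {w : Lb} (hw : w ∈ Val n m cl) (h : R vX w) : w = vA 0 0 ∨ w = vA 1 0 := by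
  rcases hw with rfl | rfl | ⟨i', hi', rfl | rfl⟩ | ⟨i', hi', rfl | rfl⟩ |
    ⟨t', ht', i', hi', b, s, rfl⟩ | ⟨j, hj, p, hp, s, rfl⟩
  · exact absurd h R_XX
  · exact absurd h (R_XY _ _)
  · rw [R_XA] at h; subst h; exact Or.inl rfl
  · exact absurd h (R_XB _ _)
  · rw [R_XA] at h; subst h; exact Or.inr rfl
  · exact absurd h (R_XB _ _)
  · exact absurd h (R_XO _ _ _ _ _)
  · exact absurd h (R_XO _ _ _ _ _)

theorem nbrA {t i : ℕ} {w : Lb} (hw : w ∈ Val n m cl) (h : R (vA t i) w) :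
    w = pre t i ∨ (∃ b, i < n ∧ w = vO t i 0 (b, i) false) ∨
      (∃ j < m, ∃ p < 3, i = n + j ∧ w = vO t i (p + 1) (cl j p) false) := by
  rcases hw with rfl | rfl | ⟨i', hi', rfl | rfl⟩ | ⟨i', hi', rfl | rfl⟩ |
    ⟨t', ht', i', hi', b, s, rfl⟩ | ⟨j, hj, p, hp, s, rfl⟩
  · rw [R_comm, R_XA] at h; subst h; exact Or.inl rfl
  · rw [R_comm] at h; exact absurd h (R_YA _ _ _ _)
  · exact absurd h (R_AA _ _ _ _)
  · rw [R_AB] at h; obtain ⟨rfl, rfl⟩ := h; left; rw [pre_succ]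
  · exact absurd h (R_AA _ _ _ _)
  · rw [R_AB] at h; obtain ⟨rfl, rfl⟩ := h; left; rw [pre_succ]
  · rw [R_AO] at h; obtain ⟨rfl, rfl, rfl⟩ := h; right; left; exact ⟨b, hi', rfl⟩
  · rw [R_AO] at h; obtain ⟨rfl, rfl, rfl⟩ := h; right; right; exact ⟨j, hj, p, hp, rfl, rfl⟩

theorem nbrB {t i : ℕ} {w : Lb} (hw : w ∈ Val n m cl) (h : R (vB t i) w) :
    w = ent n m t (i + 1) ∨ (∃ b, i < n ∧ w = vO t i 0 (b, i) true) ∨
      (∃ j < m, ∃ p < 3, i = n + j ∧ w = vO t i (p + 1) (cl j p) true) := by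
  rcases hw with rfl | rfl | ⟨i', hi', rfl | rfl⟩ | ⟨i', hi', rfl | rfl⟩ |
    ⟨t', ht', i', hi', b, s, rfl⟩ | ⟨j, hj, p, hp, s, rfl⟩
  · rw [R_comm] at h; exact absurd h (R_XB _ _)
  · rw [R_comm, R_YB] at h
    left
    unfold ent
    rw [if_pos h]
  · rw [R_comm, R_AB] at h
    obtain ⟨rfl, rfl⟩ := h
    left
    unfold ent
    rw [if_neg (by omega)]
  · exact absurd h (R_BB _ _ _ _)
  · rw [R_comm, R_AB] at h
    obtain ⟨rfl, rfl⟩ := h
    left
    unfold ent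
    rw [if_neg (by omega)]
  · exact absurd h (R_BB _ _ _ _)
  · rw [R_BO] at h; obtain ⟨rfl, rfl, rfl⟩ := h; right; left; exact ⟨b, hi', rfl⟩
  · rw [R_BO] at h; obtain ⟨rfl, rfl, rfl⟩ := h; right; right; exact ⟨j, hj, p, hp, rfl, rfl⟩

theorem nbrO {t i : ℕ} {b s : Bool} {w : Lb} (hw : w ∈ Val n m cl)
    (h : R (vO t i 0 (b, i) s) w) :
    (w = vA t i ∧ s = false) ∨ (w = vB t i ∧ s = true) ∨ w = vO t i 0 (b, i) (!s) ∨
      (s ≠ b ∧ ∃ u < 2, u ≠ t ∧ w = vO u i 0 (!b, i) b) ∨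
      (s ≠ b ∧ ∃ j < m, ∃ p < 3, cl j p = (!b, i) ∧ w = vO 1 (n + j) (p + 1) (!b, i) b) := by
  rcases hw with rfl | rfl | ⟨i', hi', rfl | rfl⟩ | ⟨i', hi', rfl | rfl⟩ |
    ⟨t', ht', i', hi', b', s', rfl⟩ | ⟨j, hj, p, hp, s', rfl⟩
  · rw [R_comm] at h; exact absurd h (R_XO _ _ _ _ _)
  · rw [R_comm] at h; exact absurd h (R_YO _ _ _ _ _ _ _)
  · rw [R_comm, R_AO] at h; obtain ⟨rfl, rfl, rfl⟩ := h; exact Or.inl ⟨rfl, rfl⟩
  · rw [R_comm, R_BO] at h; obtain ⟨rfl, rfl, rfl⟩ := h; exact Or.inr (Or.inl ⟨rfl, rfl⟩)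
  · rw [R_comm, R_AO] at h; obtain ⟨rfl, rfl, rfl⟩ := h; exact Or.inl ⟨rfl, rfl⟩
  · rw [R_comm, R_BO] at h; obtain ⟨rfl, rfl, rfl⟩ := h; exact Or.inr (Or.inl ⟨rfl, rfl⟩)
  · rw [R_OO] at h
    rcases h with ⟨rfl, rfl, -, h1, h2⟩ | ⟨h1, h2, h3, h4, h5⟩
    · right; right; left
      simp only [Prod.mk.injEq, and_true] at h1
      subst h1
      congr 5
      cases s <;> cases s' <;> simp_all
    · right; right; right; left
      simp only at h1 h2 h3 h4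
      subst h1
      have e1 : b' = !b := by cases b <;> cases b' <;> simp_all
      subst e1
      have e2 : s' = b := by cases b <;> cases s' <;> simp_all
      subst e2
      refine ⟨h3, t', ht', ?_, rfl⟩
      rcases h5 with h5 | h5 | h5
      · exact absurd rfl h5.2
      · exact absurd rfl h5.1
      · exact h5.2.2.symm
  · rw [R_OO] at h
    rcases h with ⟨-, -, h0, -⟩ | ⟨h1, h2, h3, h4, h5⟩
    · omega
    · right; right; right; right
      simp only at h1 h2 h3 h4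
      have e1 : (cl j p).1 = !b := by
        revert h2
        cases b <;> cases (cl j p).1 <;> simp
      have e0 : cl j p = (!b, i) := Prod.ext e1 h1.symm
      rw [e0] at h4 ⊢
      have e2 : s' = b := by
        simp only at h4
        revert h4
        cases b <;> cases s' <;> simp
      subst e2
      exact ⟨h3, j, hj, p, hp, e0, rfl⟩

theorem nbrC {j p : ℕ} {s : Bool} {w : Lb} (hw : w ∈ Val n m cl)
    (h : R (vO 1 (n + j) (p + 1) (cl j p) s) w) :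
    (w = vA 1 (n + j) ∧ s = false) ∨ (w = vB 1 (n + j) ∧ s = true) ∨
      w = vO 1 (n + j) (p + 1) (cl j p) (!s) ∨
      (s ≠ (cl j p).1 ∧ ∃ u < 2, (cl j p).2 < n ∧
        w = vO u (cl j p).2 0 (!(cl j p).1, (cl j p).2) (cl j p).1) := by
  rcases hw with rfl | rfl | ⟨i', hi', rfl | rfl⟩ | ⟨i', hi', rfl | rfl⟩ |
    ⟨t', ht', i', hi', b', s', rfl⟩ | ⟨j', hj', p', hp', s', rfl⟩
  · rw [R_comm] at h; exact absurd h (R_XO _ _ _ _ _)
  · rw [R_comm] at h; exact absurd h (R_YO _ _ _ _ _ _ _)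
  · rw [R_comm, R_AO] at h; omega
  · rw [R_comm, R_BO] at h; omega
  · rw [R_comm, R_AO] at h; obtain ⟨_, rfl, rfl⟩ := h; exact Or.inl ⟨rfl, rfl⟩
  · rw [R_comm, R_BO] at h; obtain ⟨_, rfl, rfl⟩ := h; exact Or.inr (Or.inl ⟨rfl, rfl⟩)
  · rw [R_OO] at h
    rcases h with ⟨-, -, h0, -⟩ | ⟨h1, h2, h3, h4, h5⟩
    · omega
    · right; right; right
      simp only at h1 h2 h3 h4
      subst h1
      have e1 : b' = !(cl j p).1 := by
        revert h2
        cases b' <;> cases (cl j p).1 <;> simp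
      subst e1
      have e2 : s' = (cl j p).1 := by
        revert h4
        cases s' <;> cases (cl j p).1 <;> simp
      subst e2
      exact ⟨h3, t', ht', hi', rfl⟩
  · rw [R_OO] at h
    rcases h with ⟨-, h1, h2, h3, h4⟩ | ⟨-, -, -, -, h5⟩
    · right; right; left
      have e1 : j' = j := by omega
      have e2 : p' = p := by omega
      subst e1 e2
      congr 5
      cases s <;> cases s' <;> simp_all
    · omega

/-- The part of the hole in the first layers. -/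
def TT (S : Set Lb) (i : ℕ) : Set Lb :=
  {x | x ∈ S ∧ (x = vX ∨ ∃ t j, j < i ∧ (x = vA t j ∨ x = vB t j ∨ ∃ b s, x = vO t j 0 (b, j) s))}

/-- The induction statement. -/
structure Inv (n m : ℕ) (S : Set Lb) (i : ℕ) : Prop where
  e : ∀ t < 2, ent n m t i ∈ S
  p : ∀ t < 2, pre t i ∈ S
  c : ∀ v ∈ TT S i, ∀ w ∈ S, R v w → w ∈ TT S i ∨ ∃ t < 2, w = ent n m t i
  d : ∀ j < i, ∃ b : Bool, ∀ t < 2, vO t j 0 (b, j) (!b) ∈ S

theorem pre_mem_TT {S : Set Lb} {t i : ℕ} (h : pre t i ∈ S) : pre t i ∈ TT S i := by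
  refine ⟨h, ?_⟩
  unfold pre
  split_ifs with h0
  · exact Or.inl rfl
  · exact Or.inr ⟨t, i - 1, by omega, Or.inr (Or.inl rfl)⟩

/-- A closed set in the first layers cannot exist. -/
theorem closing {S : Set Lb} (H : HoleSet n m cl S) {i : ℕ} (hi : i < n) (I : Inv n m S i)
    (Ls : Set Lb) (hsub : Ls ⊆ S)
    (hA : ∀ t < 2, ∀ w ∈ S, R (vA t i) w → w = pre t i ∨ w ∈ Ls)
    (hL : ∀ v ∈ Ls, ∀ w ∈ S, R v w → w ∈ Ls ∨ ∃ t < 2, w = vA t i)
    (hY : vY n (n + m) ∉ Ls) : False := by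
  have hent : ∀ t < 2, vA t i ∈ S := fun t ht => by
    have := I.e t ht
    rwa [ent_of_lt hi] at this
  have h1 := H.conn (TT S i ∪ {x | ∃ t < 2, x = vA t i} ∪ Ls) ?_ ?_ ?_
  · rcases h1 with (h1 | ⟨t, ht, h1⟩) | h1
    · rcases h1.2 with h2 | ⟨t, j, hj, h2 | h2 | ⟨b, s, h2⟩⟩
      · exact vX_ne_vY _ _ h2.symm
      · exact vY_ne_vA _ _ _ _ h2
      · exact vY_ne_vB _ _ _ _ h2
      · exact vY_ne_vO _ _ _ _ _ _ _ h2
    · exact vY_ne_vA _ _ _ _ h1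
    · exact hY h1
  · rintro x ((hx | ⟨t, ht, rfl⟩) | hx)
    · exact hx.1
    · exact hent t ht
    · exact hsub hx
  · exact Or.inl (Or.inl ⟨H.hX, Or.inl rfl⟩)
  · rintro v ((hv | ⟨t, ht, rfl⟩) | hv) w hw hvw
    · rcases I.c v hv w hw hvw with h | ⟨t, ht, rfl⟩
      · exact Or.inl (Or.inl h)
      · rw [ent_of_lt hi]
        exact Or.inl (Or.inr ⟨t, ht, rfl⟩)
    · rcases hA t ht w hw hvw with rfl | h
      · exact Or.inl (Or.inl (pre_mem_TT hw))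
      · exact Or.inr h
    · rcases hL v hv w hw hvw with h | h
      · exact Or.inr h
      · exact Or.inl (Or.inr h)

/-- The first layer step, given the facts on the layer. -/
theorem Inv.succ {S : Set Lb} (H : HoleSet n m cl S) {i : ℕ} (hi : i < n) (I : Inv n m S i)
    (hB : ∀ t < 2, vB t i ∈ S) (hE : ∀ t < 2, ent n m t (i + 1) ∈ S)
    (hC : ∀ t < 2, ∀ b s, vO t i 0 (b, i) s ∈ S → s ≠ b → ∀ j < m, ∀ p < 3, cl j p = (!b, i) →
      vO 1 (n + j) (p + 1) (!b, i) b ∉ S)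
    (hd : ∃ b : Bool, ∀ t < 2, vO t i 0 (b, i) (!b) ∈ S) : Inv n m S (i + 1) := by
  refine ⟨hE, fun t ht => by rw [pre_succ]; exact hB t ht, ?_, ?_⟩
  · have hmono : ∀ x ∈ TT S i, x ∈ TT S (i + 1) := by
      rintro x ⟨hx, rfl | ⟨t, j, hj, h⟩⟩
      · exact ⟨hx, Or.inl rfl⟩
      · exact ⟨hx, Or.inr ⟨t, j, by omega, h⟩⟩
    rintro v ⟨hv, hv'⟩ w hw hvw
    by_cases hvi : v ∈ TT S i
    · rcases I.c v hvi w hw hvw with h | ⟨t, ht, rfl⟩
      · exact Or.inl (hmono _ h)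
      · left
        rw [ent_of_lt hi] at hw ⊢
        exact ⟨hw, Or.inr ⟨t, i, by omega, Or.inl rfl⟩⟩
    · rcases hv' with rfl | ⟨t, j, hj, h⟩
      · exact absurd ⟨hv, Or.inl rfl⟩ hvi
      have hji : j = i := by
        by_contra hne
        exact hvi ⟨hv, Or.inr ⟨t, j, by omega, h⟩⟩
      subst hji
      rcases h with rfl | rfl | ⟨b, s, rfl⟩
      · left
        rcases nbrA (H.sub hw) hvw with rfl | ⟨b, -, rfl⟩ | ⟨j', hj', p, hp, h, -⟩
        · exact hmono _ (pre_mem_TT hw)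
        · exact ⟨hw, Or.inr ⟨t, j, by omega, Or.inr (Or.inr ⟨_, _, rfl⟩)⟩⟩
        · omega
      · rcases nbrB (H.sub hw) hvw with rfl | ⟨b, -, rfl⟩ | ⟨j', hj', p, hp, h, -⟩
        · right
          have ht2 : t < 2 := by
            rcases H.sub hv with h | h | ⟨i', hi', h | h⟩ | ⟨i', hi', h | h⟩ |
              ⟨t', ht', i', hi', b, s, h⟩ | ⟨j, hj, p, hp, s, h⟩
            · exact absurd h.symm (vX_ne_vB _ _)
            · exact absurd h.symm (vY_ne_vB _ _ _ _)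
            · exact absurd h.symm (vA_ne_vB _ _ _ _)
            · rw [vB_inj] at h; omega
            · exact absurd h.symm (vA_ne_vB _ _ _ _)
            · rw [vB_inj] at h; omega
            · exact absurd h (vB_ne_vO _ _ _ _ _ _ _)
            · exact absurd h (vB_ne_vO _ _ _ _ _ _ _)
          exact ⟨t, ht2, rfl⟩
        · left
          exact ⟨hw, Or.inr ⟨t, j, by omega, Or.inr (Or.inr ⟨_, _, rfl⟩)⟩⟩
        · omega
      · left
        have ht2 : t < 2 := by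
          rcases H.sub hv with h | h | ⟨i', hi', h | h⟩ | ⟨i', hi', h | h⟩ |
            ⟨t', ht', i', hi', b, s, h⟩ | ⟨j, hj, p, hp, s, h⟩
          · exact absurd h.symm (vX_ne_vO _ _ _ _ _)
          · exact absurd h.symm (vY_ne_vO _ _ _ _ _ _ _)
          · exact absurd h.symm (vA_ne_vO _ _ _ _ _ _ _)
          · exact absurd h.symm (vB_ne_vO _ _ _ _ _ _ _)
          · exact absurd h.symm (vA_ne_vO _ _ _ _ _ _ _)
          · exact absurd h.symm (vB_ne_vO _ _ _ _ _ _ _)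
          · rw [vO_inj] at h; omega
          · rw [vO_inj] at h; omega
        rcases nbrO (H.sub hw) hvw with ⟨rfl, -⟩ | ⟨rfl, -⟩ | rfl | ⟨-, u, hu, -, rfl⟩ |
          ⟨hs, j', hj', p, hp, hcl, rfl⟩
        · exact ⟨hw, Or.inr ⟨t, j, by omega, Or.inl rfl⟩⟩
        · exact ⟨hw, Or.inr ⟨t, j, by omega, Or.inr (Or.inl rfl)⟩⟩
        · exact ⟨hw, Or.inr ⟨t, j, by omega, Or.inr (Or.inr ⟨_, _, rfl⟩)⟩⟩
        · exact ⟨hw, Or.inr ⟨u, j, by omega, Or.inr (Or.inr ⟨_, _, rfl⟩)⟩⟩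
        · exact absurd hw (hC t ht2 b s hv hs j' hj' p hp hcl)
  · intro j hj
    by_cases hji : j = i
    · subst hji; exact hd
    · exact I.d j (by omega)

end Pool.Agent.H530R3.Hole
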