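import Pool.Agent.H530R3.Hole.Step

/-!
# Two vertices on a common hole: the layers of the clauses
-/

namespace Pool.Agent.H530R3.Hole

open Pool.Agent.NPC
open Pool.Agent.H622R2 (Lit Cl3)

variable {n m : ℕ} {cl : ℕ → ℕ → Lit} {S : Set Lb}

theorem RKC (u k p : ℕ) (l : Lit) (s : Bool) (hs : s ≠ l.1) :
    R (vO u l.2 0 (!l.1, l.2) l.1) (vO 1 k (p + 1) l s) := by
  obtain ⟨a, x⟩ := l
  refine (R_OO _ _ _ _ _ _ _ _ _ _).2 (Or.inr ⟨rfl, ?_, ?_, hs, Or.inl ⟨rfl, by omega⟩⟩)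
  · cases a <;> simp
  · cases a <;> simp

theorem noK (H : HoleSet n m cl S) (I : Inv n m S n)
    (hcl : ∀ j < m, ∀ p < 3, (cl j p).2 < n) {j p : ℕ} (hj : j < m) (hp : p < 3) {s : Bool}
    (hv : vO 1 (n + j) (p + 1) (cl j p) s ∈ S) (hs : s ≠ (cl j p).1) (u : ℕ) :
    vO u (cl j p).2 0 (!(cl j p).1, (cl j p).2) (cl j p).1 ∉ S := by
  intro hκ
  have h1 : vO u (cl j p).2 0 (!(cl j p).1, (cl j p).2) (cl j p).1 ∈ TT S n :=
    ⟨hκ, Or.inr ⟨u, (cl j p).2, hcl j hj p hp, Or.inr (Or.inr ⟨_, _, rfl⟩)⟩⟩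
  rcases I.c _ h1 _ hv (RKC u (n + j) p (cl j p) s hs) with ⟨-, h2⟩ | ⟨t, ht, h2⟩
  · rcases h2 with h2 | ⟨t', j', hj', h2 | h2 | ⟨b, s', h2⟩⟩
    · exact vX_ne_vO _ _ _ _ _ h2.symm
    · exact vA_ne_vO _ _ _ _ _ _ _ h2.symm
    · exact vB_ne_vO _ _ _ _ _ _ _ h2.symm
    · rw [vO_inj] at h2; omega
  · unfold ent at h2
    split_ifs at h2
    · exact vY_ne_vO _ _ _ _ _ _ _ h2.symm
    · exact vA_ne_vO _ _ _ _ _ _ _ h2.symm

theorem clause_step (H : HoleSet n m cl S) (I : Inv n m S n)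
    (hcl : ∀ j < m, ∀ p < 3, (cl j p).2 < n) {j : ℕ} (hj : j < m)
    (he : ent n m 1 (n + j) ∈ S) (hpre : pre 1 (n + j) ∈ S) :
    (∃ p < 3, ∀ s, vO 1 (n + j) (p + 1) (cl j p) s ∈ S) ∧ ent n m 1 (n + (j + 1)) ∈ S ∧
      pre 1 (n + (j + 1)) ∈ S := by
  have hA : vA 1 (n + j) ∈ S := by
    unfold ent at he
    rwa [if_neg (by omega)] at he
  obtain ⟨w, hw, hR, hne⟩ := H.snd hA (pre 1 (n + j))
  obtain ⟨p, hp, rfl⟩ : ∃ p < 3, w = vO 1 (n + j) (p + 1) (cl j p) false := by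
    rcases nbrA (H.sub hw) hR with h | ⟨b, hb, -⟩ | ⟨j', hj', p, hp, h, rfl⟩
    · exact absurd h hne
    · omega
    · have : j' = j := by omega
      subst this
      exact ⟨p, hp, rfl⟩
  have hA2 : ∀ w ∈ S, R (vA 1 (n + j)) w → w = pre 1 (n + j) ∨
      w = vO 1 (n + j) (p + 1) (cl j p) false :=
    H.two hA hpre hw (pre_ne_vO _ _ _ _ _ _ _) (RA_pre _ _) hR
  have h1 : vO 1 (n + j) (p + 1) (cl j p) true ∈ S := by
    obtain ⟨w', hw', hR', hne'⟩ := H.snd hw (vA 1 (n + j))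
    rcases nbrC (H.sub hw') hR' with ⟨rfl, -⟩ | ⟨-, h⟩ | rfl | ⟨h, u, hu, -, rfl⟩
    · exact absurd rfl hne'
    · exact absurd h (by simp)
    · exact hw'
    · exact absurd hw' (noK H I hcl hj hp hw h u)
  have hB : vB 1 (n + j) ∈ S := by
    obtain ⟨w', hw', hR', hne'⟩ := H.snd h1 (vO 1 (n + j) (p + 1) (cl j p) false)
    rcases nbrC (H.sub hw') hR' with ⟨-, h⟩ | ⟨rfl, -⟩ | rfl | ⟨h, u, hu, -, rfl⟩
    · exact absurd h (by simp)
    · exact hw'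
    · exact absurd rfl hne'
    · exact absurd hw' (noK H I hcl hj hp h1 h u)
  refine ⟨⟨p, hp, fun s => by cases s <;> assumption⟩, ?_, ?_⟩
  · obtain ⟨w', hw', hR', hne'⟩ := H.snd hB (vO 1 (n + j) (p + 1) (cl j p) true)
    rcases nbrB (H.sub hw') hR' with rfl | ⟨b, hb, -⟩ | ⟨j', hj', q, hq, h, rfl⟩
    · exact hw'
    · omega
    · exfalso
      have : j' = j := by omega
      subst this
      obtain ⟨w'', hw'', hR'', hne''⟩ := H.snd hw' (vB 1 (n + j'))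
      rcases nbrC (H.sub hw'') hR'' with ⟨-, h⟩ | ⟨rfl, -⟩ | rfl | ⟨h, u, hu, -, rfl⟩
      · exact absurd h (by simp)
      · exact absurd rfl hne''
      · rcases hA2 _ hw'' ((R_AO _ _ _ _ _ _ _).2 ⟨rfl, rfl, rfl⟩) with h | h
        · exact absurd h.symm (pre_ne_vO _ _ _ _ _ _ _)
        · rw [vO_inj] at h
          have : q = p := by omega
          subst this
          exact hne' rfl
      · exact absurd hw'' (noK H I hcl hj' hq hw' h u)
  · rw [← add_assoc, pre_succ]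
    exact hB

/-- A hole through both special vertices gives a satisfying assignment. -/
theorem backward (H : HoleSet n m cl S) (hn : 0 < n)
    (hcl : ∀ j < m, ∀ p < 3, (cl j p).2 < n) :
    ∃ τ : ℕ → Bool, ∀ j < m, ∃ p < 3, τ (cl j p).2 = (cl j p).1 := by
  classical
  have I := Inv.all H hn n le_rfl
  have hτ : ∀ i, ∃ b : Bool, i < n → ∀ t < 2, vO t i 0 (b, i) (!b) ∈ S := by
    intro i
    by_cases hi : i < n
    · obtain ⟨b, hb⟩ := I.d i hi
      exact ⟨b, fun _ => hb⟩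
    · exact ⟨true, fun h => absurd h hi⟩
  choose τ hτ using hτ
  have key : ∀ j ≤ m, ent n m 1 (n + j) ∈ S ∧ pre 1 (n + j) ∈ S := by
    intro j
    induction j with
    | zero => exact fun _ => ⟨I.e 1 (by omega), I.p 1 (by omega)⟩
    | succ j ih =>
      intro hj
      obtain ⟨h1, h2⟩ := ih (by omega)
      exact (clause_step H I hcl (by omega) h1 h2).2
  refine ⟨τ, fun j hj => ?_⟩
  obtain ⟨h1, h2⟩ := key j hj.le
  obtain ⟨⟨p, hp, h⟩, -⟩ := clause_step H I hcl hj h1 h2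
  refine ⟨p, hp, ?_⟩
  by_contra hne
  have e1 : τ (cl j p).2 = !(cl j p).1 := by
    revert hne
    cases τ (cl j p).2 <;> cases (cl j p).1 <;> simp
  have h3 := hτ (cl j p).2 (hcl j hj p hp) 0 (by omega)
  rw [e1, Bool.not_not] at h3
  exact noK H I hcl hj hp (h (!(cl j p).1)) (by simp) 0 h3

end Pool.Agent.H530R3.Hole
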