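import Mathlib

/-!
# Holes and perfect graphs: definitions
-/

namespace Pool.Agent.H530R3.Hole

/-- The vertices `u` and `v` lie on a common hole of `G`: some induced subgraph of `G` which is a
cycle with at least four vertices contains both. -/
def OnCommonHole {V : Type} (G : SimpleGraph V) (u v : V) : Prop :=
  ∃ k : ℕ, 4 ≤ k ∧ ∃ f : SimpleGraph.cycleGraph k ↪g G, u ∈ Set.range f ∧ v ∈ Set.range f

/-- A graph is perfect when the chromatic number of each of its induced subgraphs is the size of a
largest clique of this subgraph. -/
def IsPerfect {V : Type} (G : SimpleGraph V) : Prop :=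
  ∀ s : Set V, (G.induce s).chromaticNumber = ((G.induce s).cliqueNum : ℕ∞)

/-- Bipartite graphs are perfect. -/
theorem isPerfect_of_isBipartite {V : Type} [Finite V] {G : SimpleGraph V} (h : G.IsBipartite) :
    IsPerfect G := by
  classical
  intro s
  have hfin : Finite s := inferInstance
  refine le_antisymm ?_ SimpleGraph.cliqueNum_le_chromaticNumber
  have h2 : (G.induce s).Colorable 2 := by
    obtain ⟨c⟩ := h
    exact ⟨c.comp (SimpleGraph.Embedding.induce s).toHom⟩
  rcases isEmpty_or_nonempty s with hs | ⟨⟨a, ha⟩⟩
  · rw [SimpleGraph.chromaticNumber_eq_zero_of_isEmpty]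
    exact bot_le
  by_cases he : ∃ a b : s, (G.induce s).Adj a b
  · obtain ⟨a, b, hab⟩ := he
    have hc : (G.induce s).IsClique (({a, b} : Finset s) : Set s) := by
      intro x hx y hy hxy
      simp only [Finset.coe_insert, Finset.coe_singleton, Set.mem_insert_iff,
        Set.mem_singleton_iff] at hx hy
      rcases hx with rfl | rfl <;> rcases hy with rfl | rfl
      · exact absurd rfl hxy
      · exact hab
      · exact hab.symm
      · exact absurd rfl hxy
    have h3 := hc.card_le_cliqueNum
    rw [Finset.card_pair hab.ne] at h3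
    exact h2.chromaticNumber_le.trans (by exact_mod_cast h3)
  · push Not at he
    have h1 : (G.induce s).Colorable 1 := ⟨SimpleGraph.Coloring.mk (fun _ => 0) (by
      intro a b hab
      exact absurd hab (he a b))⟩
    have hc : (G.induce s).IsClique (({(⟨a, ha⟩ : s)} : Finset s) : Set s) := by simp
    have h3 := hc.card_le_cliqueNum
    rw [Finset.card_singleton] at h3
    exact h1.chromaticNumber_le.trans (by exact_mod_cast h3)

/-- Adjacency in cycle graphs in terms of natural numbers. -/
theorem cycle_adj {k : ℕ} (hk : 3 ≤ k) (i j : Fin k) : (SimpleGraph.cycleGraph k).Adj i j ↔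
    i.val + 1 = j.val ∨ j.val + 1 = i.val ∨ (i.val = 0 ∧ j.val + 1 = k) ∨
      (j.val = 0 ∧ i.val + 1 = k) := by
  rw [SimpleGraph.cycleGraph_adj', Fin.sub_def, Fin.sub_def]
  simp only
  have hi := i.2
  have hj := j.2
  have e1 : (k - j.val + i.val) % k = if j.val ≤ i.val then i.val - j.val else k - j.val + i.val := by
    split_ifs with h
    · rw [show k - j.val + i.val = (i.val - j.val) + k by omega, Nat.add_mod_right,
        Nat.mod_eq_of_lt (by omega)]
    · exact Nat.mod_eq_of_lt (by omega)
  have e2 : (k - i.val + j.val) % k = if i.val ≤ j.val then j.val - i.val else k - i.val + j.val := by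
    split_ifs with h
    · rw [show k - i.val + j.val = (j.val - i.val) + k by omega, Nat.add_mod_right,
        Nat.mod_eq_of_lt (by omega)]
    · exact Nat.mod_eq_of_lt (by omega)
  rw [e1, e2]
  split_ifs <;> omega

end Pool.Agent.H530R3.Hole
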