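import Pool.Agent.H530R3.Hole.Labels

/-!
# Two vertices on a common hole: from a satisfying assignment to a hole
-/

namespace Pool.Agent.H530R3.Hole

open Pool.Agent.NPC
open Pool.Agent.H622R2 (Lit Cl3)

/-- The option chosen in layer `i`. -/
def opt (n : ℕ) (cl : ℕ → ℕ → Lit) (τ : ℕ → Bool) (pc : ℕ → ℕ) (i : ℕ) : ℕ × Lit :=
  if i < n then (0, (τ i, i)) else (pc (i - n) + 1, cl (i - n) (pc (i - n)))

/-- The vertex number `q` of the path on track `t`. -/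
def tl (o : ℕ → ℕ × Lit) (t q : ℕ) : Lb :=
  if q % 4 = 0 then vA t (q / 4) else if q % 4 = 1 then vO t (q / 4) (o (q / 4)).1 (o (q / 4)).2 false
  else if q % 4 = 2 then vO t (q / 4) (o (q / 4)).1 (o (q / 4)).2 true else vB t (q / 4)

theorem tl_cases (o : ℕ → ℕ × Lit) (t q : ℕ) :
    (∃ i, q = 4 * i ∧ tl o t q = vA t i) ∨
    (∃ i, q = 4 * i + 1 ∧ tl o t q = vO t i (o i).1 (o i).2 false) ∨
    (∃ i, q = 4 * i + 2 ∧ tl o t q = vO t i (o i).1 (o i).2 true) ∨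
    (∃ i, q = 4 * i + 3 ∧ tl o t q = vB t i) := by
  unfold tl
  split_ifs with h1 h2 h3
  · exact Or.inl ⟨q / 4, by omega, rfl⟩
  · exact Or.inr (Or.inl ⟨q / 4, by omega, rfl⟩)
  · exact Or.inr (Or.inr (Or.inl ⟨q / 4, by omega, rfl⟩))
  · exact Or.inr (Or.inr (Or.inr ⟨q / 4, by omega, rfl⟩))

theorem R_X_tl (o : ℕ → ℕ × Lit) (t q : ℕ) : R vX (tl o t q) ↔ q = 0 := by
  rcases tl_cases o t q with ⟨i, hq, h⟩ | ⟨i, hq, h⟩ | ⟨i, hq, h⟩ | ⟨i, hq, h⟩ <;> rw [h]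
  · rw [R_XA]; omega
  · simp only [R_XO, false_iff]; omega
  · simp only [R_XO, false_iff]; omega
  · simp only [R_XB, false_iff]; omega

theorem R_Y_tl (o : ℕ → ℕ × Lit) (n N t q : ℕ) : R (vY n N) (tl o t q) ↔
    (t = 0 ∧ q + 1 = 4 * n) ∨ (t = 1 ∧ q + 1 = 4 * N) := by
  rcases tl_cases o t q with ⟨i, hq, h⟩ | ⟨i, hq, h⟩ | ⟨i, hq, h⟩ | ⟨i, hq, h⟩ <;> rw [h]
  · simp only [R_YA, false_iff]; omega
  · simp only [R_YO, false_iff]; omega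
  · simp only [R_YO, false_iff]; omega
  · rw [R_YB]; omega

theorem R_tl {o : ℕ → ℕ × Lit} {τ : ℕ → Bool} {K : ℕ}
    (ho : ∀ i < K, τ (o i).2.2 = (o i).2.1) {t q t' q' : ℕ} (hq : q < 4 * K) (hq' : q' < 4 * K) :
    R (tl o t q) (tl o t' q') ↔ t = t' ∧ (q + 1 = q' ∨ q' + 1 = q) := by
  have hlit : ∀ i i', i < K → i' < K → ∀ s s', ((o i).2.2 = (o i').2.2 ∧ (o i).2.1 ≠ (o i').2.1 ∧
      s ≠ (o i).2.1 ∧ s' ≠ (o i').2.1 ∧ (((o i).1 = 0 ∧ (o i').1 ≠ 0) ∨ ((o i).1 ≠ 0 ∧ (o i').1 = 0) ∨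
        ((o i).1 = 0 ∧ (o i').1 = 0 ∧ t ≠ t'))) ↔ False := by
    intro i i' hi hi' s s'
    simp only [iff_false]
    rintro ⟨h1, h2, -⟩
    apply h2
    rw [← ho i hi, ← ho i' hi', h1]
  rcases tl_cases o t q with ⟨i, hi, h⟩ | ⟨i, hi, h⟩ | ⟨i, hi, h⟩ | ⟨i, hi, h⟩ <;>
  rcases tl_cases o t' q' with ⟨j, hj, h'⟩ | ⟨j, hj, h'⟩ | ⟨j, hj, h'⟩ | ⟨j, hj, h'⟩ <;>
  rw [h, h']
  · simp only [R_AA, false_iff]; omega
  · rw [R_AO]; simp; omega
  · rw [R_AO]; simp; omega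
  · rw [R_AB]; omega
  · rw [R_comm, R_AO]; simp; omega
  · rw [R_OO, hlit i j (by omega) (by omega)]; simp; omega
  · rw [R_OO, hlit i j (by omega) (by omega)]
    simp only [ne_eq, Bool.false_eq_true, not_false_eq_true, and_true, or_false]
    constructor
    · rintro ⟨rfl, rfl, -⟩; exact ⟨rfl, by omega⟩
    · rintro ⟨rfl, h⟩
      have : i = j := by omega
      subst this
      exact ⟨rfl, rfl, rfl, rfl⟩
  · rw [R_comm, R_BO]; simp; omega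
  · rw [R_comm, R_AO]; simp; omega
  · rw [R_OO, hlit i j (by omega) (by omega)]
    simp only [ne_eq, Bool.true_eq_false, not_false_eq_true, and_true, or_false]
    constructor
    · rintro ⟨rfl, rfl, -⟩; exact ⟨rfl, by omega⟩
    · rintro ⟨rfl, h⟩
      have : i = j := by omega
      subst this
      exact ⟨rfl, rfl, rfl, rfl⟩
  · rw [R_OO, hlit i j (by omega) (by omega)]; simp; omega
  · rw [R_comm, R_BO]; simp; omega
  · rw [R_comm, R_AB]; omega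
  · rw [R_BO]; simp; omega
  · rw [R_BO]; simp; omega
  · simp only [R_BB, false_iff]; omega

theorem tl_inj {o : ℕ → ℕ × Lit} {t q t' q' : ℕ} (h0 : tl o t q = tl o t' q') :
    t = t' ∧ q = q' := by
  rcases tl_cases o t q with ⟨i, hi, h⟩ | ⟨i, hi, h⟩ | ⟨i, hi, h⟩ | ⟨i, hi, h⟩ <;>
  rcases tl_cases o t' q' with ⟨j, hj, h'⟩ | ⟨j, hj, h'⟩ | ⟨j, hj, h'⟩ | ⟨j, hj, h'⟩ <;>
  rw [h, h'] at h0
  · rw [vA_inj] at h0; omega
  · exact absurd h0 (vA_ne_vO _ _ _ _ _ _ _)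
  · exact absurd h0 (vA_ne_vO _ _ _ _ _ _ _)
  · exact absurd h0 (vA_ne_vB _ _ _ _)
  · exact absurd h0.symm (vA_ne_vO _ _ _ _ _ _ _)
  · rw [vO_inj] at h0; omega
  · rw [vO_inj] at h0; simp at h0
  · exact absurd h0.symm (vB_ne_vO _ _ _ _ _ _ _)
  · exact absurd h0.symm (vA_ne_vO _ _ _ _ _ _ _)
  · rw [vO_inj] at h0; simp at h0
  · rw [vO_inj] at h0; omega
  · exact absurd h0.symm (vB_ne_vO _ _ _ _ _ _ _)
  · exact absurd h0.symm (vA_ne_vB _ _ _ _)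
  · exact absurd h0 (vB_ne_vO _ _ _ _ _ _ _)
  · exact absurd h0 (vB_ne_vO _ _ _ _ _ _ _)
  · rw [vB_inj] at h0; omega

theorem tl_ne_X (o : ℕ → ℕ × Lit) (t q : ℕ) : vX ≠ tl o t q := by
  rcases tl_cases o t q with ⟨i, hq, h⟩ | ⟨i, hq, h⟩ | ⟨i, hq, h⟩ | ⟨i, hq, h⟩ <;> rw [h]
  · exact vX_ne_vA _ _
  · exact vX_ne_vO _ _ _ _ _
  · exact vX_ne_vO _ _ _ _ _
  · exact vX_ne_vB _ _

theorem tl_ne_Y (o : ℕ → ℕ × Lit) (n N t q : ℕ) : vY n N ≠ tl o t q := by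
  rcases tl_cases o t q with ⟨i, hq, h⟩ | ⟨i, hq, h⟩ | ⟨i, hq, h⟩ | ⟨i, hq, h⟩ <;> rw [h]
  · exact vY_ne_vA _ _ _ _
  · exact vY_ne_vO _ _ _ _ _ _ _
  · exact vY_ne_vO _ _ _ _ _ _ _
  · exact vY_ne_vB _ _ _ _

/-- The vertices of the hole. -/
def F (o : ℕ → ℕ × Lit) (n m pos : ℕ) : Lb :=
  if pos = 0 then vX else if pos ≤ 4 * n then tl o 0 (pos - 1)
  else if pos = 4 * n + 1 then vY n (n + m) else tl o 1 (8 * n + 4 * m + 1 - pos)

theorem F_cases (o : ℕ → ℕ × Lit) (n m pos : ℕ) (h : pos < 8 * n + 4 * m + 2) :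
    (pos = 0 ∧ F o n m pos = vX) ∨
    (∃ q, q < 4 * n ∧ pos = q + 1 ∧ F o n m pos = tl o 0 q) ∨
    (pos = 4 * n + 1 ∧ F o n m pos = vY n (n + m)) ∨
    (∃ q, q < 4 * (n + m) ∧ pos + q = 8 * n + 4 * m + 1 ∧ F o n m pos = tl o 1 q) := by
  unfold F
  split_ifs with h1 h2 h3
  · exact Or.inl ⟨h1, rfl⟩
  · exact Or.inr (Or.inl ⟨pos - 1, by omega, by omega, rfl⟩)
  · exact Or.inr (Or.inr (Or.inl ⟨h3, rfl⟩))
  · exact Or.inr (Or.inr (Or.inr ⟨_, by omega, by omega, rfl⟩))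

theorem R_F {o : ℕ → ℕ × Lit} {τ : ℕ → Bool} {n m : ℕ} (hn : 0 < n)
    (ho : ∀ i < n + m, τ (o i).2.2 = (o i).2.1) {a b : ℕ} (ha : a < 8 * n + 4 * m + 2)
    (hb : b < 8 * n + 4 * m + 2) : R (F o n m a) (F o n m b) ↔
      a + 1 = b ∨ b + 1 = a ∨ (a = 0 ∧ b + 1 = 8 * n + 4 * m + 2) ∨
        (b = 0 ∧ a + 1 = 8 * n + 4 * m + 2) := by
  rcases F_cases o n m a ha with ⟨ha', h⟩ | ⟨q, hq, ha', h⟩ | ⟨ha', h⟩ | ⟨q, hq, ha', h⟩ <;>
  rcases F_cases o n m b hb with ⟨hb', h'⟩ | ⟨r, hr, hb', h'⟩ | ⟨hb', h'⟩ | ⟨r, hr, hb', h'⟩ <;>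
  rw [h, h']
  · simp only [R_XX, false_iff]; omega
  · rw [R_X_tl]; omega
  · simp only [R_XY, false_iff]; omega
  · rw [R_X_tl]; omega
  · rw [R_comm, R_X_tl]; omega
  · rw [R_tl ho (by omega) (by omega)]; omega
  · rw [R_comm, R_Y_tl]; omega
  · rw [R_tl ho (by omega) (by omega)]; omega
  · rw [R_comm]; simp only [R_XY, false_iff]; omega
  · rw [R_Y_tl]; omega
  · simp only [R_YY, false_iff]; omega
  · rw [R_Y_tl]; omega
  · rw [R_comm, R_X_tl]; omega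
  · rw [R_tl ho (by omega) (by omega)]; omega
  · rw [R_comm, R_Y_tl]; omega
  · rw [R_tl ho (by omega) (by omega)]; omega

theorem F_inj {o : ℕ → ℕ × Lit} {n m : ℕ} {a b : ℕ} (ha : a < 8 * n + 4 * m + 2)
    (hb : b < 8 * n + 4 * m + 2) (hab : F o n m a = F o n m b) : a = b := by
  rcases F_cases o n m a ha with ⟨ha', h⟩ | ⟨q, hq, ha', h⟩ | ⟨ha', h⟩ | ⟨q, hq, ha', h⟩ <;>
  rcases F_cases o n m b hb with ⟨hb', h'⟩ | ⟨r, hr, hb', h'⟩ | ⟨hb', h'⟩ | ⟨r, hr, hb', h'⟩ <;>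
  rw [h, h'] at hab
  · omega
  · exact absurd hab (tl_ne_X _ _ _)
  · exact absurd hab (vX_ne_vY _ _)
  · exact absurd hab (tl_ne_X _ _ _)
  · exact absurd hab.symm (tl_ne_X _ _ _)
  · have := tl_inj hab; omega
  · exact absurd hab.symm (tl_ne_Y _ _ _ _ _)
  · have := tl_inj hab; omega
  · exact absurd hab.symm (vX_ne_vY _ _)
  · exact absurd hab (tl_ne_Y _ _ _ _ _)
  · omega
  · exact absurd hab (tl_ne_Y _ _ _ _ _)
  · exact absurd hab.symm (tl_ne_X _ _ _)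
  · have := tl_inj hab; omega
  · exact absurd hab.symm (tl_ne_Y _ _ _ _ _)
  · have := tl_inj hab; omega

/-- Everything about the hole of a satisfying assignment. -/
theorem forward {n m : ℕ} {cl : ℕ → ℕ → Lit} (hn : 0 < n) {τ : ℕ → Bool}
    (h : ∀ j < m, ∃ p < 3, τ (cl j p).2 = (cl j p).1) :
    ∃ f : ℕ → Lb, (∀ a < 8 * n + 4 * m + 2, f a ∈ Val n m cl) ∧
      (∀ a < 8 * n + 4 * m + 2, ∀ b < 8 * n + 4 * m + 2, f a = f b → a = b) ∧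
      (∀ a < 8 * n + 4 * m + 2, ∀ b < 8 * n + 4 * m + 2, (R (f a) (f b) ↔
        a + 1 = b ∨ b + 1 = a ∨ (a = 0 ∧ b + 1 = 8 * n + 4 * m + 2) ∨
        (b = 0 ∧ a + 1 = 8 * n + 4 * m + 2))) ∧ f 0 = vX ∧ f (4 * n + 1) = vY n (n + m) := by
  classical
  have hpc : ∀ j, ∃ p, j < m → p < 3 ∧ τ (cl j p).2 = (cl j p).1 := by
    intro j
    by_cases hj : j < m
    · obtain ⟨p, hp, hp'⟩ := h j hj
      exact ⟨p, fun _ => ⟨hp, hp'⟩⟩
    · exact ⟨0, fun h => absurd h hj⟩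
  choose pc hpc using hpc
  set o := opt n cl τ pc with ho
  have ho' : ∀ i < n + m, τ (o i).2.2 = (o i).2.1 := by
    intro i hi
    simp only [ho, opt]
    split_ifs with h1
    · rfl
    · exact (hpc (i - n) (by omega)).2
  refine ⟨F o n m, ?_, fun a ha b hb => F_inj ha hb, fun a ha b hb => R_F hn ho' ha hb, ?_, ?_⟩
  · have key : ∀ t i s, t < 2 → i < n + m → (t = 0 → i < n) →
        vO t i (o i).1 (o i).2 s ∈ Val n m cl := by
      intro t i s ht hi hti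
      by_cases hin : i < n
      · right; right; right; right; left
        refine ⟨t, ht, i, hin, τ i, s, ?_⟩
        simp only [ho, opt, if_pos hin]
      · right; right; right; right; right
        have ht1 : t = 1 := by
          by_contra h
          exact hin (hti (by omega))
        refine ⟨i - n, by omega, pc (i - n), (hpc _ (by omega)).1, s, ?_⟩
        simp only [ho, opt, if_neg hin, ht1]
        rw [show n + (i - n) = i by omega]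
    intro a ha
    rcases F_cases o n m a ha with ⟨ha', h⟩ | ⟨q, hq, ha', h⟩ | ⟨ha', h⟩ | ⟨q, hq, ha', h⟩ <;>
      rw [h]
    · exact Or.inl rfl
    · rcases tl_cases o 0 q with ⟨i, hi, h⟩ | ⟨i, hi, h⟩ | ⟨i, hi, h⟩ | ⟨i, hi, h⟩ <;> rw [h]
      · exact Or.inr (Or.inr (Or.inl ⟨i, by omega, Or.inl rfl⟩))
      · exact key 0 i _ (by omega) (by omega) (by omega)
      · exact key 0 i _ (by omega) (by omega) (by omega)
      · exact Or.inr (Or.inr (Or.inl ⟨i, by omega, Or.inr rfl⟩))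
    · exact Or.inr (Or.inl rfl)
    · rcases tl_cases o 1 q with ⟨i, hi, h⟩ | ⟨i, hi, h⟩ | ⟨i, hi, h⟩ | ⟨i, hi, h⟩ <;> rw [h]
      · exact Or.inr (Or.inr (Or.inr (Or.inl ⟨i, by omega, Or.inl rfl⟩)))
      · exact key 1 i _ (by omega) (by omega) (by omega)
      · exact key 1 i _ (by omega) (by omega) (by omega)
      · exact Or.inr (Or.inr (Or.inr (Or.inl ⟨i, by omega, Or.inr rfl⟩)))
  · simp [F]
  · unfold F
    rw [if_neg (by omega), if_neg (by omega), if_pos rfl]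

end Pool.Agent.H530R3.Hole
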