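import Pool.Agent.H622R2.Base

/-!
# Two vertices on a common hole: the graph of a formula

There are two tracks from the vertex `X` to the vertex `Y`.  Track `0` consists of one layer for
each variable, track `1` of one layer for each variable and one layer for each clause.  Each layer
has an entry `A`, an exit `B`, and for each of its options a path of length three from `A` to `B`.
-/

namespace Pool.Agent.H530R3.Hole

open Pool.Agent.NPC
open Pool.Agent.H622R2 (Lit Cl3)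

/-- Labels: kind, track, layer, option number, literal, first or second vertex of the option. -/
abbrev Lb := ℕ × ℕ × ℕ × ℕ × Lit × Bool

/-- the first special vertex -/
def vX : Lb := (0, 0, 0, 0, (true, 0), false)
/-- the second special vertex, it carries the numbers of layers of the two tracks -/
def vY (n N : ℕ) : Lb := (1, n, N, 0, (true, 0), false)
/-- the entry of a layer -/
def vA (t i : ℕ) : Lb := (2, t, i, 0, (true, 0), false)
/-- the exit of a layer -/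
def vB (t i : ℕ) : Lb := (3, t, i, 0, (true, 0), false)
/-- the two vertices of an option -/
def vO (t i p : ℕ) (l : Lit) (s : Bool) : Lb := (4, t, i, p, l, s)

/-- Half of the adjacency. -/
def half (u v : Lb) : Bool :=
  decide ((u.1 = 0 ∧ v.1 = 2 ∧ v.2.2.1 = 0) ∨
    (u.1 = 2 ∧ v.1 = 4 ∧ u.2.1 = v.2.1 ∧ u.2.2.1 = v.2.2.1 ∧ v.2.2.2.2.2 = false) ∨
    (u.1 = 4 ∧ v.1 = 4 ∧ u.2.1 = v.2.1 ∧ u.2.2.1 = v.2.2.1 ∧ u.2.2.2.1 = v.2.2.2.1 ∧
      u.2.2.2.2.1 = v.2.2.2.2.1 ∧ u.2.2.2.2.2 ≠ v.2.2.2.2.2) ∨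
    (u.1 = 4 ∧ v.1 = 3 ∧ u.2.1 = v.2.1 ∧ u.2.2.1 = v.2.2.1 ∧ u.2.2.2.2.2 = true) ∨
    (u.1 = 3 ∧ v.1 = 2 ∧ u.2.1 = v.2.1 ∧ v.2.2.1 = u.2.2.1 + 1) ∨
    (u.1 = 3 ∧ v.1 = 1 ∧ u.2.1 = 0 ∧ u.2.2.1 + 1 = v.2.1) ∨
    (u.1 = 3 ∧ v.1 = 1 ∧ u.2.1 = 1 ∧ u.2.2.1 + 1 = v.2.2.1) ∨
    (u.1 = 4 ∧ v.1 = 4 ∧ u.2.2.2.2.1.2 = v.2.2.2.2.1.2 ∧ u.2.2.2.2.1.1 ≠ v.2.2.2.2.1.1 ∧
      u.2.2.2.2.2 ≠ u.2.2.2.2.1.1 ∧ v.2.2.2.2.2 ≠ v.2.2.2.2.1.1 ∧ u.2.2.2.1 = 0 ∧
      ¬ (v.2.2.2.1 = 0 ∧ u.2.1 = v.2.1)))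

/-- Adjacency. -/
def R (u v : Lb) : Prop := half u v = true ∨ half v u = true

theorem R_symm {u v : Lb} (h : R u v) : R v u := h.symm

theorem R_comm {u v : Lb} : R u v ↔ R v u := Or.comm

theorem R_XX : ¬ R vX vX := by simp [R, half, vX]
theorem R_XY (n N : ℕ) : ¬ R vX (vY n N) := by simp [R, half, vX, vY]
theorem R_XA (t i : ℕ) : R vX (vA t i) ↔ i = 0 := by simp [R, half, vX, vA]
theorem R_XB (t i : ℕ) : ¬ R vX (vB t i) := by simp [R, half, vX, vB]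
theorem R_XO (t i p : ℕ) (l : Lit) (s : Bool) : ¬ R vX (vO t i p l s) := by
  simp [R, half, vX, vO]
theorem R_YY (n N : ℕ) : ¬ R (vY n N) (vY n N) := by simp [R, half, vY]
theorem R_YA (n N t i : ℕ) : ¬ R (vY n N) (vA t i) := by simp [R, half, vY, vA]
theorem R_YB (n N t i : ℕ) : R (vY n N) (vB t i) ↔ (t = 0 ∧ i + 1 = n) ∨ (t = 1 ∧ i + 1 = N) := by
  simp [R, half, vY, vB]
theorem R_YO (n N t i p : ℕ) (l : Lit) (s : Bool) : ¬ R (vY n N) (vO t i p l s) := by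
  simp [R, half, vY, vO]
theorem R_AA (t i t' i' : ℕ) : ¬ R (vA t i) (vA t' i') := by simp [R, half, vA]
theorem R_AB (t i t' i' : ℕ) : R (vA t i) (vB t' i') ↔ t = t' ∧ i = i' + 1 := by
  have h : R (vA t i) (vB t' i') ↔ t' = t ∧ i = i' + 1 := by simp [R, half, vA, vB]
  rw [h, eq_comm (a := t')]
theorem R_AO (t i t' i' p : ℕ) (l : Lit) (s : Bool) :
    R (vA t i) (vO t' i' p l s) ↔ t = t' ∧ i = i' ∧ s = false := by
  simp [R, half, vA, vO]
theorem R_BB (t i t' i' : ℕ) : ¬ R (vB t i) (vB t' i') := by simp [R, half, vB]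
theorem R_BO (t i t' i' p : ℕ) (l : Lit) (s : Bool) :
    R (vB t i) (vO t' i' p l s) ↔ t = t' ∧ i = i' ∧ s = true := by
  simp only [R, half, vB, vO, decide_eq_true_eq]
  constructor
  · rintro (h | h)
    · omega
    · rcases h with h | h | h | h | h | h | h | h
      all_goals first
        | (exfalso; omega)
        | exact ⟨h.2.2.1.symm, h.2.2.2.1.symm, h.2.2.2.2⟩
  · rintro ⟨rfl, rfl, rfl⟩
    right
    simp
theorem R_OO (t i p : ℕ) (l : Lit) (s : Bool) (t' i' p' : ℕ) (l' : Lit) (s' : Bool) :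
    R (vO t i p l s) (vO t' i' p' l' s') ↔
      (t = t' ∧ i = i' ∧ p = p' ∧ l = l' ∧ s ≠ s') ∨
      (l.2 = l'.2 ∧ l.1 ≠ l'.1 ∧ s ≠ l.1 ∧ s' ≠ l'.1 ∧
        ((p = 0 ∧ p' ≠ 0) ∨ (p ≠ 0 ∧ p' = 0) ∨ (p = 0 ∧ p' = 0 ∧ t ≠ t'))) := by
  simp only [R, half, vO, decide_eq_true_eq]
  constructor
  · rintro (h | h)
    · rcases h with h | h | h | h | h | h | h | h
      all_goals first
        | (exfalso; omega)
        | (left; exact ⟨h.2.2.1, h.2.2.2.1, h.2.2.2.2.1, h.2.2.2.2.2.1, h.2.2.2.2.2.2⟩)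
        | skip
      right
      obtain ⟨-, -, h1, h2, h3, h4, h5, h6⟩ := h
      refine ⟨h1, h2, h3, h4, ?_⟩
      by_cases hp : p' = 0
      · exact Or.inr (Or.inr ⟨h5, hp, fun e => h6 ⟨hp, e⟩⟩)
      · exact Or.inl ⟨h5, hp⟩
    · rcases h with h | h | h | h | h | h | h | h
      all_goals first
        | (exfalso; omega)
        | (left; exact ⟨h.2.2.1.symm, h.2.2.2.1.symm, h.2.2.2.2.1.symm, h.2.2.2.2.2.1.symm,
            h.2.2.2.2.2.2.symm⟩)
        | skip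
      right
      obtain ⟨-, -, h1, h2, h3, h4, h5, h6⟩ := h
      refine ⟨h1.symm, h2.symm, h4, h3, ?_⟩
      by_cases hp : p = 0
      · exact Or.inr (Or.inr ⟨hp, h5, fun e => h6 ⟨hp, e.symm⟩⟩)
      · exact Or.inr (Or.inl ⟨hp, h5⟩)
  · rintro (⟨rfl, rfl, rfl, rfl, h⟩ | ⟨h1, h2, h3, h4, h⟩)
    · left
      simp [h]
    · rcases h with ⟨h5, h6⟩ | ⟨h5, h6⟩ | ⟨h5, h6, h7⟩
      · left
        right; right; right; right; right; right; right
        exact ⟨trivial, trivial, h1, h2, h3, h4, h5, fun h => absurd h.1 h6⟩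
      · right
        right; right; right; right; right; right; right
        exact ⟨trivial, trivial, h1.symm, h2.symm, h4, h3, h6, fun h => absurd h.1 h5⟩
      · left
        right; right; right; right; right; right; right
        exact ⟨trivial, trivial, h1, h2, h3, h4, h5, fun h => absurd h.2 h7⟩

theorem vA_inj {t i t' i' : ℕ} : vA t i = vA t' i' ↔ t = t' ∧ i = i' := by simp [vA]
theorem vB_inj {t i t' i' : ℕ} : vB t i = vB t' i' ↔ t = t' ∧ i = i' := by simp [vB]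
theorem vO_inj {t i p : ℕ} {l : Lit} {s : Bool} {t' i' p' : ℕ} {l' : Lit} {s' : Bool} :
    vO t i p l s = vO t' i' p' l' s' ↔ t = t' ∧ i = i' ∧ p = p' ∧ l = l' ∧ s = s' := by
  simp [vO]
theorem vX_ne_vY (n N : ℕ) : vX ≠ vY n N := by simp [vX, vY]
theorem vX_ne_vA (t i : ℕ) : vX ≠ vA t i := by simp [vX, vA]
theorem vX_ne_vB (t i : ℕ) : vX ≠ vB t i := by simp [vX, vB]
theorem vX_ne_vO (t i p : ℕ) (l : Lit) (s : Bool) : vX ≠ vO t i p l s := by simp [vX, vO]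
theorem vY_ne_vA (n N t i : ℕ) : vY n N ≠ vA t i := by simp [vY, vA]
theorem vY_ne_vB (n N t i : ℕ) : vY n N ≠ vB t i := by simp [vY, vB]
theorem vY_ne_vO (n N t i p : ℕ) (l : Lit) (s : Bool) : vY n N ≠ vO t i p l s := by simp [vY, vO]
theorem vA_ne_vB (t i t' i' : ℕ) : vA t i ≠ vB t' i' := by simp [vA, vB]
theorem vA_ne_vO (t i t' i' p : ℕ) (l : Lit) (s : Bool) : vA t i ≠ vO t' i' p l s := by
  simp [vA, vO]
theorem vB_ne_vO (t i t' i' p : ℕ) (l : Lit) (s : Bool) : vB t i ≠ vO t' i' p l s := by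
  simp [vB, vO]

/-- The labels of the graph of a formula with `n` variables and `m` clauses with three literals;
`cl j p` is the literal number `p` of clause `j`. -/
def Val (n m : ℕ) (cl : ℕ → ℕ → Lit) : Set Lb :=
  {x | x = vX ∨ x = vY n (n + m) ∨ (∃ i < n, x = vA 0 i ∨ x = vB 0 i) ∨
    (∃ i < n + m, x = vA 1 i ∨ x = vB 1 i) ∨
    (∃ t < 2, ∃ i < n, ∃ b s, x = vO t i 0 (b, i) s) ∨
    (∃ j < m, ∃ p < 3, ∃ s, x = vO 1 (n + j) (p + 1) (cl j p) s)}

/-- The colour of a label in a proper two-colouring. -/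
def col (x : Lb) : Bool := decide (x.1 = 1 ∨ x.1 = 2 ∨ (x.1 = 4 ∧ x.2.2.2.2.2 = true))

theorem col_ne {u v : Lb} (h : R u v) : col u ≠ col v := by
  have key : ∀ u v : Lb, half u v = true → col u ≠ col v := by
    rintro ⟨k, t, i, p, ⟨a, x⟩, s⟩ ⟨k', t', i', p', ⟨a', x'⟩, s'⟩ h
    simp only [half, decide_eq_true_eq] at h
    rcases h with h | h | h | h | h | h | h | h
    · obtain ⟨rfl, rfl, -⟩ := h; simp [col]
    · obtain ⟨rfl, rfl, -, -, h⟩ := h; subst h; simp [col]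
    · obtain ⟨rfl, rfl, -, -, -, -, h⟩ := h; revert h; cases s <;> cases s' <;> simp [col]
    · obtain ⟨rfl, rfl, -, -, h⟩ := h; subst h; simp [col]
    · obtain ⟨rfl, rfl, -⟩ := h; simp [col]
    · obtain ⟨rfl, rfl, -⟩ := h; simp [col]
    · obtain ⟨rfl, rfl, -⟩ := h; simp [col]
    · obtain ⟨rfl, rfl, -, h1, h2, h3, -⟩ := h
      revert h1 h2 h3
      cases a <;> cases a' <;> cases s <;> cases s' <;> simp [col]
  rcases h with h | h
  · exact key u v h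
  · exact (key v u h).symm

end Pool.Agent.H530R3.Hole
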