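import Pool.Agent.H530R3.Hole.Red

/-!
# Two vertices on a common hole: the reduction is computable in polynomial time
-/

namespace Pool.Agent.H530R3.Hole

open Pool.Agent.NPC Pool.Agent.H673R2
open Pool.Agent.H622R2 (Lit Cl3 Sat3 matGraph mat ddup ddup_poly mat_poly)

section PolyTime

set_option synthInstance.maxSize 4000

open Poly

theorem vA_poly {α : Type} [TEnc α] {t i : α → ℕ} (ht : Poly t) (hi : Poly i) :
    Poly (fun a => vA (t a) (i a)) :=
  pair (const 2) (pair ht (pair hi (const _)))

theorem vB_poly {α : Type} [TEnc α] {t i : α → ℕ} (ht : Poly t) (hi : Poly i) :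
    Poly (fun a => vB (t a) (i a)) :=
  pair (const 3) (pair ht (pair hi (const _)))

theorem vO_poly {α : Type} [TEnc α] {t i p : α → ℕ} {l : α → Lit} {s : α → Bool} (ht : Poly t)
    (hi : Poly i) (hp : Poly p) (hl : Poly l) (hs : Poly s) :
    Poly (fun a => vO (t a) (i a) (p a) (l a) (s a)) :=
  pair (const 4) (pair ht (pair hi (pair hp (pair hl hs))))

theorem clo_poly {α : Type} [TEnc α] {f : α → List Cl3} {j p : α → ℕ} (hf : Poly f)
    (hj : Poly j) (hp : Poly p) : Poly (fun a => clo (f a) (j a) (p a)) := by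
  have h0 : Poly (fun a => (f a).getD (j a) ((true, 0), (true, 0), (true, 0))) :=
    getD hf hj (const _)
  exact ite (decide_eq hp (const 0)) (fst h0) (ite (decide_eq hp (const 1)) (fst (snd h0))
    (snd (snd h0)))

theorem rest_poly {α : Type} [TEnc α] {f : α → List Cl3} (hf : Poly f) :
    Poly (fun a => rest (f a)) := by
  have hm : UPoly (fun a => (f a).length) := UPoly.length hf
  have hn : UPoly (fun a => 3 * (f a).length) := UPoly.mul (UPoly.const 3) hm
  have h1 : Poly (fun p : α × ℕ => p.2) := snd id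
  refine append (flatMap (F := fun _ (i : ℕ) =>
    [vA 0 i, vB 0 i, vA 1 i, vB 1 i, vO 0 i 0 (false, i) false, vO 0 i 0 (false, i) true,
      vO 0 i 0 (true, i) false, vO 0 i 0 (true, i) true, vO 1 i 0 (false, i) false,
      vO 1 i 0 (false, i) true, vO 1 i 0 (true, i) false, vO 1 i 0 (true, i) true])
    (UPoly.range hn) ?_) (flatMap (F := fun a (j : ℕ) =>
    [vA 1 (3 * (f a).length + j), vB 1 (3 * (f a).length + j),
      vO 1 (3 * (f a).length + j) 1 (clo (f a) j 0) false,
      vO 1 (3 * (f a).length + j) 1 (clo (f a) j 0) true,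
      vO 1 (3 * (f a).length + j) 2 (clo (f a) j 1) false,
      vO 1 (3 * (f a).length + j) 2 (clo (f a) j 1) true,
      vO 1 (3 * (f a).length + j) 3 (clo (f a) j 2) false,
      vO 1 (3 * (f a).length + j) 3 (clo (f a) j 2) true]) (UPoly.range hm) ?_)
  · have hO : ∀ (t : ℕ) (b s : Bool), Poly (fun p : α × ℕ => vO t p.2 0 (b, p.2) s) :=
      fun t b s => vO_poly (const t) h1 (const 0) (pair (const b) h1) (const s)
    exact cons (vA_poly (const _) h1) (cons (vB_poly (const _) h1) (cons (vA_poly (const _) h1)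
      (cons (vB_poly (const _) h1) (cons (hO _ _ _) (cons (hO _ _ _) (cons (hO _ _ _)
      (cons (hO _ _ _) (cons (hO _ _ _) (cons (hO _ _ _) (cons (hO _ _ _) (cons (hO _ _ _)
      (const []))))))))))))
  · have hf' : Poly (fun p : α × ℕ => f p.1) := hf.comp (fst id)
    have h2 : Poly (fun p : α × ℕ => 3 * (f p.1).length + p.2) :=
      add (mul (const 3) (length hf')) h1
    have hO : ∀ (q q' : ℕ) (s : Bool), Poly (fun p : α × ℕ =>
        vO 1 (3 * (f p.1).length + p.2) q (clo (f p.1) p.2 q') s) :=
      fun q q' s => vO_poly (const 1) h2 (const q) (clo_poly hf' h1 (const q')) (const s)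
    exact cons (vA_poly (const _) h2) (cons (vB_poly (const _) h2) (cons (hO _ _ _)
      (cons (hO _ _ _) (cons (hO _ _ _) (cons (hO _ _ _) (cons (hO _ _ _) (cons (hO _ _ _)
      (const []))))))))

theorem vs_poly {α : Type} [TEnc α] {f : α → List Cl3} (hf : Poly f) :
    Poly (fun a => vs (f a)) := by
  have hn : Poly (fun a => 3 * (f a).length) := mul (const 3) (length hf)
  exact cons (const _) (cons (pair (const 1) (pair hn (pair (add hn (length hf)) (const _))))
    (ddup_poly (rest_poly hf)))

theorem half_poly {α : Type} [TEnc α] {u v : α → Lb} (hu : Poly u) (hv : Poly v) :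
    Poly (fun a => half (u a) (v a)) := by
  have ku : Poly (fun a => (u a).1) := fst hu
  have kv : Poly (fun a => (v a).1) := fst hv
  have tu : Poly (fun a => (u a).2.1) := fst (snd hu)
  have tv : Poly (fun a => (v a).2.1) := fst (snd hv)
  have iu : Poly (fun a => (u a).2.2.1) := fst (snd (snd hu))
  have iv : Poly (fun a => (v a).2.2.1) := fst (snd (snd hv))
  have pu : Poly (fun a => (u a).2.2.2.1) := fst (snd (snd (snd hu)))
  have pv : Poly (fun a => (v a).2.2.2.1) := fst (snd (snd (snd hv)))
  have lu : Poly (fun a => (u a).2.2.2.2.1) := fst (snd (snd (snd (snd hu))))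
  have lv : Poly (fun a => (v a).2.2.2.2.1) := fst (snd (snd (snd (snd hv))))
  have su : Poly (fun a => (u a).2.2.2.2.2) := snd (snd (snd (snd (snd hu))))
  have sv : Poly (fun a => (v a).2.2.2.2.2) := snd (snd (snd (snd (snd hv))))
  have eqc : ∀ {n : α → ℕ} (k : ℕ), Poly n → Poly (fun a => decide (n a = k)) :=
    fun k hn => decide_eq hn (const k)
  exact decide_or (decide_and (eqc 0 ku) (decide_and (eqc 2 kv) (eqc 0 iv)))
    (decide_or (decide_and (eqc 2 ku) (decide_and (eqc 4 kv) (decide_and (decide_eq tu tv)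
      (decide_and (decide_eq iu iv) (decide_eq sv (const false))))))
    (decide_or (decide_and (eqc 4 ku) (decide_and (eqc 4 kv) (decide_and (decide_eq tu tv)
      (decide_and (decide_eq iu iv) (decide_and (decide_eq pu pv) (decide_and (decide_eq lu lv)
        (decide_not (decide_eq su sv))))))))
    (decide_or (decide_and (eqc 4 ku) (decide_and (eqc 3 kv) (decide_and (decide_eq tu tv)
      (decide_and (decide_eq iu iv) (decide_eq su (const true))))))
    (decide_or (decide_and (eqc 3 ku) (decide_and (eqc 2 kv) (decide_and (decide_eq tu tv)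
      (decide_eq iv (add iu (const 1))))))
    (decide_or (decide_and (eqc 3 ku) (decide_and (eqc 1 kv) (decide_and (eqc 0 tu)
      (decide_eq (add iu (const 1)) tv))))
    (decide_or (decide_and (eqc 3 ku) (decide_and (eqc 1 kv) (decide_and (eqc 1 tu)
      (decide_eq (add iu (const 1)) iv))))
    (decide_and (eqc 4 ku) (decide_and (eqc 4 kv) (decide_and (decide_eq (snd lu) (snd lv))
      (decide_and (decide_not (decide_eq (fst lu) (fst lv)))
      (decide_and (decide_not (decide_eq su (fst lu)))
      (decide_and (decide_not (decide_eq sv (fst lv)))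
      (decide_and (eqc 0 pu) (decide_not (decide_and (eqc 0 pv) (decide_eq tu tv))))))))))))))))

theorem red_poly : Poly red :=
  pair (mat_poly (adj := fun _ u v => half u v) (vs_poly id)
    (half_poly (snd (fst id)) (snd id))) (const _)

/-- Every variable of the renamed formula is small. -/
theorem ren_bnd (φ : List Cl3) : Bnd (ren3 (((true, 0), (false, 0), (true, 0)) :: φ)) := by
  have hlen : ∀ ψ : List Cl3, (ren3 ψ).length = ψ.length := fun ψ => by simp [ren3]
  have hvl : ∀ ψ : List Cl3, (vars3 ψ).length = 3 * ψ.length := by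
    intro ψ
    induction ψ with
    | nil => rfl
    | cons c ψ ih =>
      unfold vars3 at *
      rw [List.flatMap_cons, List.length_append, ih, List.length_cons]
      simp
      omega
  have hidx : ∀ (l : List ℕ) (v : ℕ), v ∈ l → index l v < l.length := by
    intro l v hv
    have := getElem?_index hv
    rw [List.getElem?_eq_some_iff] at this
    exact this.1
  refine ⟨by rw [hlen]; simp, ?_⟩
  intro c hc
  rw [hlen]
  unfold ren3 at hc
  rw [List.mem_map] at hc
  obtain ⟨d, hd, rfl⟩ := hc
  obtain ⟨h1, h2, h3⟩ := mem_vars3 hd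
  rw [← hvl]
  exact ⟨hidx _ _ h1, hidx _ _ h2, hidx _ _ h3⟩

/-- 3SAT stays hard for such formulas. -/
theorem hardPr_bnd : HardPr Bnd Sat3 := by
  refine HardPr.trans (f := fun φ => ren3 (((true, 0), (false, 0), (true, 0)) :: φ))
    hardI_SAT3.toHardPr (ren3_poly.comp (cons (const _) id)) (fun φ _ => ren_bnd φ) ?_
  intro φ _
  have h1 : SAT3 φ ↔ Sat3V ℕ (((true, 0), (false, 0), (true, 0)) :: φ) := by
    constructor
    · rintro ⟨τ, hτ⟩
      refine ⟨τ, fun c hc => ?_⟩
      rw [List.mem_cons] at hc
      rcases hc with rfl | hc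
      · cases τ 0 <;> simp
      · exact hτ c hc
    · rintro ⟨τ, hτ⟩
      exact ⟨τ, fun c hc => hτ c (List.mem_cons_of_mem _ hc)⟩
  rw [h1]
  exact ren3_sat _

end PolyTime

/-- A decision problem which is hard on some instances is not decided correctly on these instances
in polynomial time. -/
theorem no_decide {α : Type} [TEnc α] {Pr P : α → Prop} (h : NPHardOn Pr P) (hne : PneNP) :
    ¬ ∃ f : List Bool → List Bool, PolyTime f ∧ ∀ a, Pr a → (P a ↔ f (bits a) = [true]) := by
  rintro ⟨f, hf, hs⟩
  obtain ⟨L, hL, hL'⟩ := hne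
  apply hL'
  obtain ⟨g, hg, hgp, hgL⟩ := h L hL
  exact ⟨fun x => f (bits (g x)),
    H642R2.TMSim.polyTime_comp (g := f) (f := fun x => bits (g x)) hf hg,
    fun x => (hgL x).trans (hs _ (hgp x))⟩

/-- The instances with a bipartite graph. -/
theorem hard : NPHardOn (fun I : Inst => ValidInst I ∧ (matGraph I.1).IsBipartite ∧
    IsPerfect (matGraph I.1)) HoleInst :=
  npHardOn_of hardPr_bnd red_poly
    (fun φ _ => ⟨red_valid φ, red_bipartite φ, isPerfect_of_isBipartite (red_bipartite φ)⟩)
    (fun _ hφ => red_correct hφ)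

end Pool.Agent.H530R3.Hole
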