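import Pool.Agent.H530R3.Hole.Clauses
import Pool.Agent.H530R3.Hole.Forward
import Pool.Agent.H530R3.Hole.Defs
import Pool.Agent.H673R2.Search
import Pool.Agent.NPC.Sat

/-!
# Two vertices on a common hole: the reduction
-/

namespace Pool.Agent.H530R3.Hole

open Pool.Agent.NPC Pool.Agent.H673R2
open Pool.Agent.H622R2 (Lit Cl3 Sat3 matGraph mat matIso ddup mem_ddup ddup_nodup ddup_poly mat_poly
  labGraph mat_length)

/-- The literal number `p` of clause `j`. -/
def clo (φ : List Cl3) (j p : ℕ) : Lit :=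
  if p = 0 then (φ.getD j ((true, 0), (true, 0), (true, 0))).1
  else if p = 1 then (φ.getD j ((true, 0), (true, 0), (true, 0))).2.1
  else (φ.getD j ((true, 0), (true, 0), (true, 0))).2.2

set_option synthInstance.maxSize 4000 in
instance instDecLb : DecidableEq Lb := inferInstance

/-- Labels without the special ones. -/
def rest (φ : List Cl3) : List Lb :=
  ((List.range (3 * φ.length)).flatMap fun i =>
    [vA 0 i, vB 0 i, vA 1 i, vB 1 i, vO 0 i 0 (false, i) false, vO 0 i 0 (false, i) true,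
      vO 0 i 0 (true, i) false, vO 0 i 0 (true, i) true, vO 1 i 0 (false, i) false,
      vO 1 i 0 (false, i) true, vO 1 i 0 (true, i) false, vO 1 i 0 (true, i) true]) ++
  ((List.range φ.length).flatMap fun j =>
    [vA 1 (3 * φ.length + j), vB 1 (3 * φ.length + j),
      vO 1 (3 * φ.length + j) 1 (clo φ j 0) false, vO 1 (3 * φ.length + j) 1 (clo φ j 0) true,
      vO 1 (3 * φ.length + j) 2 (clo φ j 1) false, vO 1 (3 * φ.length + j) 2 (clo φ j 1) true,
      vO 1 (3 * φ.length + j) 3 (clo φ j 2) false, vO 1 (3 * φ.length + j) 3 (clo φ j 2) true])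

/-- All labels. -/
def vs (φ : List Cl3) : List Lb :=
  vX :: vY (3 * φ.length) (3 * φ.length + φ.length) :: ddup (rest φ)

theorem mem_rest (φ : List Cl3) (x : Lb) (h : x ∈ rest φ) : x ≠ vX ∧
    x ≠ vY (3 * φ.length) (3 * φ.length + φ.length) := by
  simp only [rest, List.mem_append, List.mem_flatMap, List.mem_range, List.mem_cons,
    List.not_mem_nil, or_false] at h
  rcases h with ⟨i, hi, h⟩ | ⟨j, hj, h⟩
  · rcases h with rfl | rfl | rfl | rfl | rfl | rfl | rfl | rfl | rfl | rfl | rfl | rfl <;>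
      constructor <;> simp [vX, vY, vA, vB, vO]
  · rcases h with rfl | rfl | rfl | rfl | rfl | rfl | rfl | rfl <;>
      constructor <;> simp [vX, vY, vA, vB, vO]

theorem vs_nodup (φ : List Cl3) : (vs φ).Nodup := by
  unfold vs
  rw [List.nodup_cons, List.nodup_cons]
  refine ⟨?_, ?_, ddup_nodup _⟩
  · intro h
    rw [List.mem_cons] at h
    rcases h with h | h
    · exact vX_ne_vY _ _ h
    · exact (mem_rest φ _ ((mem_ddup _ _).1 h)).1 rfl
  · intro h
    exact (mem_rest φ _ ((mem_ddup _ _).1 h)).2 rfl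

theorem mem_vs (φ : List Cl3) (x : Lb) :
    x ∈ vs φ ↔ x ∈ Val (3 * φ.length) φ.length (clo φ) := by
  unfold vs
  rw [List.mem_cons, List.mem_cons, mem_ddup]
  simp only [rest, List.mem_append, List.mem_flatMap, List.mem_range, List.mem_cons,
    List.not_mem_nil, or_false, Val, Set.mem_ofPred_eq]
  constructor
  · rintro (h | h | ⟨i, hi, h⟩ | ⟨j, hj, h⟩)
    · exact Or.inl h
    · exact Or.inr (Or.inl h)
    · rcases h with h | h | h | h | h | h | h | h | h | h | h | h
      · exact Or.inr (Or.inr (Or.inl ⟨i, hi, Or.inl h⟩))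
      · exact Or.inr (Or.inr (Or.inl ⟨i, hi, Or.inr h⟩))
      · exact Or.inr (Or.inr (Or.inr (Or.inl ⟨i, by omega, Or.inl h⟩)))
      · exact Or.inr (Or.inr (Or.inr (Or.inl ⟨i, by omega, Or.inr h⟩)))
      all_goals exact Or.inr (Or.inr (Or.inr (Or.inr (Or.inl ⟨_, by omega, i, hi, _, _, h⟩))))
    · rcases h with h | h | h | h | h | h | h | h
      · exact Or.inr (Or.inr (Or.inr (Or.inl ⟨_, by omega, Or.inl h⟩)))
      · exact Or.inr (Or.inr (Or.inr (Or.inl ⟨_, by omega, Or.inr h⟩)))
      all_goals exact Or.inr (Or.inr (Or.inr (Or.inr (Or.inr ⟨j, hj, _, by omega, _, h⟩))))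
  · rintro (h | h | ⟨i, hi, h | h⟩ | ⟨i, hi, h | h⟩ | ⟨t, ht, i, hi, b, s, h⟩ |
      ⟨j, hj, p, hp, s, h⟩)
    · exact Or.inl h
    · exact Or.inr (Or.inl h)
    · exact Or.inr (Or.inr (Or.inl ⟨i, hi, Or.inl h⟩))
    · exact Or.inr (Or.inr (Or.inl ⟨i, hi, Or.inr (Or.inl h)⟩))
    · by_cases hin : i < 3 * φ.length
      · exact Or.inr (Or.inr (Or.inl ⟨i, hin, Or.inr (Or.inr (Or.inl h))⟩))
      · refine Or.inr (Or.inr (Or.inr ⟨i - 3 * φ.length, by omega, Or.inl ?_⟩))
        rw [h, show 3 * φ.length + (i - 3 * φ.length) = i by omega]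
    · by_cases hin : i < 3 * φ.length
      · exact Or.inr (Or.inr (Or.inl ⟨i, hin, Or.inr (Or.inr (Or.inr (Or.inl h)))⟩))
      · refine Or.inr (Or.inr (Or.inr ⟨i - 3 * φ.length, by omega, Or.inr (Or.inl ?_)⟩))
        rw [h, show 3 * φ.length + (i - 3 * φ.length) = i by omega]
    · refine Or.inr (Or.inr (Or.inl ⟨i, hi, ?_⟩))
      have : t = 0 ∨ t = 1 := by omega
      rcases this with rfl | rfl <;> cases b <;> cases s <;> subst h <;> simp
    · refine Or.inr (Or.inr (Or.inr ⟨j, hj, ?_⟩))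
      have : p = 0 ∨ p = 1 ∨ p = 2 := by omega
      rcases this with rfl | rfl | rfl <;> cases s <;> subst h <;> simp

/-- An instance of the problem: an adjacency matrix, and two vertices. -/
abbrev Inst := List (List Bool) × ℕ × ℕ

/-- The two vertices of the instance are different vertices of the graph. -/
def ValidInst (I : Inst) : Prop :=
  I.2.1 < I.1.length ∧ I.2.2 < I.1.length ∧ I.2.1 ≠ I.2.2

/-- The two vertices of the instance lie on a common hole. -/
def HoleInst (I : Inst) : Prop :=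
  ∃ (hu : I.2.1 < I.1.length) (hv : I.2.2 < I.1.length),
    OnCommonHole (matGraph I.1) ⟨I.2.1, hu⟩ ⟨I.2.2, hv⟩

/-- The reduction. -/
def red (φ : List Cl3) : Inst := (mat (vs φ) half, 0, 1)

/-- Nonempty formulas with at most `3 m` variables, for `m` the number of clauses. -/
def Bnd (φ : List Cl3) : Prop :=
  0 < φ.length ∧ ∀ c ∈ φ, c.1.2 < 3 * φ.length ∧ c.2.1.2 < 3 * φ.length ∧ c.2.2.2 < 3 * φ.length

theorem sat3_iff (φ : List Cl3) : Sat3 φ ↔ ∃ τ : ℕ → Bool, ∀ j < φ.length, ∃ p < 3,
    τ (clo φ j p).2 = (clo φ j p).1 := by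
  have hD : ∀ j (hj : j < φ.length), φ.getD j ((true, 0), (true, 0), (true, 0)) = φ[j] := by
    intro j hj
    rw [List.getD_eq_getElem?_getD, List.getElem?_eq_getElem hj]
    rfl
  constructor
  · rintro ⟨τ, hτ⟩
    refine ⟨τ, fun j hj => ?_⟩
    rcases hτ φ[j] (List.getElem_mem hj) with h | h | h
    · refine ⟨0, by omega, ?_⟩
      simp only [clo, if_true]
      rw [hD j hj]; exact h
    · refine ⟨1, by omega, ?_⟩
      simp only [clo, one_ne_zero, if_false, if_true]
      rw [hD j hj]; exact h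
    · refine ⟨2, by omega, ?_⟩
      simp only [clo, show (2 : ℕ) ≠ 0 by omega, show (2 : ℕ) ≠ 1 by omega, if_false]
      rw [hD j hj]; exact h
  · rintro ⟨τ, hτ⟩
    refine ⟨τ, fun c hc => ?_⟩
    obtain ⟨j, hj, rfl⟩ := List.getElem_of_mem hc
    obtain ⟨p, hp, h⟩ := hτ j hj
    unfold clo at h
    rw [hD j hj] at h
    split_ifs at h with h1 h2
    · exact Or.inl h
    · exact Or.inr (Or.inl h)
    · exact Or.inr (Or.inr h)

theorem clo_lt {φ : List Cl3} (h : Bnd φ) : ∀ j < φ.length, ∀ p < 3,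
    (clo φ j p).2 < 3 * φ.length := by
  intro j hj p _
  have hD : φ.getD j ((true, 0), (true, 0), (true, 0)) = φ[j] := by
    rw [List.getD_eq_getElem?_getD, List.getElem?_eq_getElem hj]
    rfl
  have h1 := h.2 φ[j] (List.getElem_mem hj)
  unfold clo
  rw [hD]
  split_ifs
  · exact h1.1
  · exact h1.2.1
  · exact h1.2.2

theorem R_irrefl {u v : Lb} (h : R u v) : u ≠ v := fun e => col_ne h (by rw [e])

/-- Correctness of the reduction. -/
theorem red_correct {φ : List Cl3} (hb : Bnd φ) : Sat3 φ ↔ HoleInst (red φ) := by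
  classical
  rw [sat3_iff]
  change _ ↔ ∃ (hu : 0 < (mat (vs φ) half).length) (hv : 1 < (mat (vs φ) half).length),
    OnCommonHole (matGraph (mat (vs φ) half)) ⟨0, hu⟩ ⟨1, hv⟩
  set e := matIso (vs φ) half (vs_nodup φ) with he
  have hlen : (mat (vs φ) half).length = (vs φ).length := mat_length _ _
  have hR : ∀ x y : Fin (mat (vs φ) half).length, (matGraph (mat (vs φ) half)).Adj x y ↔
      R (e x).1 (e y).1 := by
    intro x y
    rw [← e.map_adj_iff]
    constructor
    · exact fun h => h.2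
    · intro h
      exact ⟨fun h' => R_irrefl h (congrArg Subtype.val h'), h⟩
  have h2 : 2 ≤ (vs φ).length := by simp [vs]
  have e0 : ∀ h : 0 < (mat (vs φ) half).length, (e ⟨0, h⟩).1 = vX := fun h => rfl
  have e1 : ∀ h : 1 < (mat (vs φ) half).length, (e ⟨1, h⟩).1 =
    vY (3 * φ.length) (3 * φ.length + φ.length) := fun h => rfl
  have hn : 0 < 3 * φ.length := by have := hb.1; omega
  constructor
  · rintro ⟨τ, hτ⟩
    obtain ⟨f, hf1, hf2, hf3, hf4, hf5⟩ := forward hn hτ
    have hu : 0 < (mat (vs φ) half).length := by omega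
    have hv : 1 < (mat (vs φ) half).length := by omega
    refine ⟨hu, hv, 8 * (3 * φ.length) + 4 * φ.length + 2, by omega, ?_⟩
    have hmem : ∀ a : Fin (8 * (3 * φ.length) + 4 * φ.length + 2), f a.1 ∈ vs φ :=
      fun a => (mem_vs φ _).2 (hf1 _ a.2)
    refine ⟨⟨⟨fun a => e.symm ⟨f a.1, hmem a⟩, ?_⟩, ?_⟩, ?_, ?_⟩
    · intro a b hab
      have h1 := congrArg Subtype.val (e.symm.injective hab)
      exact Fin.ext (hf2 _ a.2 _ b.2 h1)
    · intro a b
      change (matGraph (mat (vs φ) half)).Adj (e.symm ⟨f a.1, hmem a⟩) (e.symm ⟨f b.1, hmem b⟩) ↔ _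
      rw [hR, e.apply_symm_apply, e.apply_symm_apply, hf3 _ a.2 _ b.2, cycle_adj (by omega)]
    · refine ⟨⟨0, by omega⟩, ?_⟩
      change e.symm ⟨f 0, _⟩ = _
      rw [e.symm_apply_eq]
      exact Subtype.ext (hf4.trans (e0 hu).symm)
    · refine ⟨⟨4 * (3 * φ.length) + 1, by omega⟩, ?_⟩
      change e.symm ⟨f (4 * (3 * φ.length) + 1), _⟩ = _
      rw [e.symm_apply_eq]
      exact Subtype.ext (hf5.trans (e1 hv).symm)
  · rintro ⟨hu, hv, k, hk, f, ⟨x, hx⟩, ⟨y, hy⟩⟩
    have hfR : ∀ a b : Fin k, (SimpleGraph.cycleGraph k).Adj a b ↔ R (e (f a)).1 (e (f b)).1 :=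
      fun a b => by rw [← f.map_adj_iff, hR]
    have hinj : ∀ a b : Fin k, (e (f a)).1 = (e (f b)).1 → a = b :=
      fun a b h => f.injective (e.injective (Subtype.ext h))
    have hxX : (e (f x)).1 = vX := by rw [hx]; exact e0 _
    have hyY : (e (f y)).1 = vY (3 * φ.length) (3 * φ.length + φ.length) := by
      rw [hy]; exact e1 _
    refine backward (S := Set.range fun a => (e (f a)).1) ⟨?_, ?_, ?_, ?_⟩ hn (clo_lt hb)
    · rintro _ ⟨a, rfl⟩
      exact (mem_vs φ _).1 (e (f a)).2
    · exact ⟨x, hxX⟩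
    · rintro _ ⟨a, rfl⟩
      have ha := a.2
      let nx : Fin k := ⟨if a.1 + 1 = k then 0 else a.1 + 1, by split_ifs <;> omega⟩
      let pv : Fin k := ⟨if a.1 = 0 then k - 1 else a.1 - 1, by split_ifs <;> omega⟩
      have hnx : (SimpleGraph.cycleGraph k).Adj a nx := by
        rw [cycle_adj (by omega)]
        simp only [nx]
        split_ifs <;> omega
      have hpv : (SimpleGraph.cycleGraph k).Adj a pv := by
        rw [cycle_adj (by omega)]
        simp only [pv]
        split_ifs <;> omega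
      refine ⟨_, ⟨nx, rfl⟩, _, ⟨pv, rfl⟩, ?_, (hfR _ _).1 hnx, (hfR _ _).1 hpv, ?_⟩
      · intro h
        have h1 := congrArg Fin.val (hinj _ _ h)
        simp only [nx, pv] at h1
        split_ifs at h1 <;> omega
      · rintro _ ⟨c, rfl⟩ hc
        have h1 := (hfR a c).2 hc
        rw [cycle_adj (by omega)] at h1
        have hcl := c.2
        by_cases h2 : c = nx
        · left; rw [h2]
        · right
          have : c = pv := by
            apply Fin.ext
            have h3 : c.1 ≠ nx.1 := fun h => h2 (Fin.ext h)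
            simp only [nx, pv] at h3 ⊢
            split_ifs at h3 ⊢ <;> omega
          rw [this]
    · intro T hT hXT hclo
      have key : ∀ a b : Fin k, (SimpleGraph.cycleGraph k).Reachable a b → (e (f a)).1 ∈ T →
          (e (f b)).1 ∈ T := by
        rintro a b ⟨w⟩
        induction w with
        | nil => exact id
        | cons h _ ih =>
          intro ha
          exact ih (hclo _ ha _ ⟨_, rfl⟩ ((hfR _ _).1 h))
      have h1 := key x y (SimpleGraph.cycleGraph_preconnected x y) (by rw [hxX]; exact hXT)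
      rw [hyY] at h1
      exact h1

/-- The graphs of the reduction are bipartite. -/
theorem red_bipartite (φ : List Cl3) : (matGraph (red φ).1).IsBipartite := by
  classical
  change (matGraph (mat (vs φ) half)).IsBipartite
  set e := matIso (vs φ) half (vs_nodup φ) with he
  refine ⟨SimpleGraph.Coloring.mk (fun x => if col (e x).1 then 1 else 0) ?_⟩
  intro x y hxy
  have h := (e.map_adj_iff.2 hxy).2
  have h1 := col_ne h
  revert h1
  cases col (e x).1 <;> cases col (e y).1 <;> simp

theorem red_valid (φ : List Cl3) : ValidInst (red φ) := by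
  have hlen : (mat (vs φ) half).length = (vs φ).length := mat_length _ _
  have h2 : 2 ≤ (vs φ).length := by simp [vs]
  refine ⟨?_, ?_, ?_⟩
  · change 0 < (mat (vs φ) half).length; omega
  · change 1 < (mat (vs φ) half).length; omega
  · change 0 ≠ 1; omega

end Pool.Agent.H530R3.Hole
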