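import Pool.Agent.H530R3.Hole.Backward

/-!
# Two vertices on a common hole: the layers of the variables
-/

namespace Pool.Agent.H530R3.Hole

open Pool.Agent.NPC
open Pool.Agent.H622R2 (Lit Cl3)

variable {n m : ℕ} {cl : ℕ → ℕ → Lit} {S : Set Lb} {i : ℕ}

theorem RA_pre (t i : ℕ) : R (vA t i) (pre t i) := by
  unfold pre
  split_ifs with h
  · rw [R_comm, R_XA]; exact h
  · rw [R_AB]; omega

theorem RAO (t i : ℕ) (b : Bool) : R (vA t i) (vO t i 0 (b, i) false) :=
  (R_AO _ _ _ _ _ _ _).2 ⟨rfl, rfl, rfl⟩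
theorem RBO (t i : ℕ) (b : Bool) : R (vB t i) (vO t i 0 (b, i) true) :=
  (R_BO _ _ _ _ _ _ _).2 ⟨rfl, rfl, rfl⟩
theorem ROO (t i : ℕ) (b : Bool) : R (vO t i 0 (b, i) false) (vO t i 0 (b, i) true) :=
  (R_OO _ _ _ _ _ _ _ _ _ _).2 (Or.inl ⟨rfl, rfl, rfl, rfl, by simp⟩)
theorem RGO {t u : ℕ} (i : ℕ) (h : t ≠ u) :
    R (vO t i 0 (true, i) false) (vO u i 0 (false, i) true) :=
  (R_OO _ _ _ _ _ _ _ _ _ _).2 (Or.inr ⟨rfl, by simp, by simp, by simp,
    Or.inr (Or.inr ⟨rfl, rfl, h⟩)⟩)
theorem RCO (t i : ℕ) (b : Bool) (k p : ℕ) :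
    R (vO t i 0 (b, i) (!b)) (vO 1 k (p + 1) (!b, i) b) :=
  (R_OO _ _ _ _ _ _ _ _ _ _).2 (Or.inr ⟨rfl, by simp, by simp, by simp,
    Or.inl ⟨rfl, by omega⟩⟩)

/-- The facts on the entries of a layer. -/
theorem Inv.option (H : HoleSet n m cl S) (hi : i < n) (I : Inv n m S i) : ∀ t < 2, ∃ b : Bool,
    vO t i 0 (b, i) false ∈ S ∧ ∀ w ∈ S, R (vA t i) w → w = pre t i ∨ w = vO t i 0 (b, i) false := by
  intro t ht
  have hA : vA t i ∈ S := by
    have := I.e t ht
    rwa [ent_of_lt hi] at this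
  obtain ⟨w, hw, hR, hne⟩ := H.snd hA (pre t i)
  rcases nbrA (H.sub hw) hR with rfl | ⟨b, -, rfl⟩ | ⟨j, hj, p, hp, h, -⟩
  · exact absurd rfl hne
  · exact ⟨b, hw, H.two hA (I.p t ht) hw (pre_ne_vO _ _ _ _ _ _ _) (RA_pre t i) hR⟩
  · omega

/-- both tracks use the positive option -/
theorem Inv.stepTT (H : HoleSet n m cl S) (hi : i < n) (I : Inv n m S i)
    (h1 : ∀ t < 2, vO t i 0 (true, i) false ∈ S)
    (h2 : ∀ t < 2, ∀ w ∈ S, R (vA t i) w → w = pre t i ∨ w = vO t i 0 (true, i) false) :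
    Inv n m S (i + 1) := by
  have hA : ∀ t < 2, vA t i ∈ S := fun t ht => by
    have := I.e t ht
    rwa [ent_of_lt hi] at this
  have hg : ∀ t < 2, vO t i 0 (false, i) false ∉ S := by
    intro t ht h
    rcases h2 t ht _ h (RAO t i false) with h' | h'
    · exact pre_ne_vO _ _ _ _ _ _ _ h'.symm
    · simp [vO] at h'
  -- no clause vertex at the first vertices
  have NC1 : ∀ j < m, ∀ p < 3, cl j p = (false, i) →
      vO 1 (n + j) (p + 1) (false, i) true ∉ S := by
    intro j hj p hp hcl hc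
    have hR : ∀ t, R (vO t i 0 (true, i) false) (vO 1 (n + j) (p + 1) (false, i) true) :=
      fun t => RCO t i true (n + j) p
    refine closing H hi I {x | (∃ t < 2, x = vO t i 0 (true, i) false) ∨
      x = vO 1 (n + j) (p + 1) (false, i) true} ?_ ?_ ?_ ?_
    · rintro x (⟨t, ht, rfl⟩ | rfl)
      · exact h1 t ht
      · exact hc
    · intro t ht w hw hR'
      rcases h2 t ht w hw hR' with h | h
      · exact Or.inl h
      · exact Or.inr (Or.inl ⟨t, ht, h⟩)
    · rintro x (⟨t, ht, rfl⟩ | rfl) w hw hR'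
      · rcases H.two (h1 t ht) (hA t ht) hc (vA_ne_vO _ _ _ _ _ _ _) (R_symm (RAO t i true)) (hR t)
          w hw hR' with h | h
        · exact Or.inr ⟨t, ht, h⟩
        · exact Or.inl (Or.inr h)
      · rcases H.two hc (h1 0 (by omega)) (h1 1 (by omega)) (by simp [vO]) (R_symm (hR 0))
          (R_symm (hR 1)) w hw hR' with h | h
        · exact Or.inl (Or.inl ⟨0, by omega, h⟩)
        · exact Or.inl (Or.inl ⟨1, by omega, h⟩)
    · rintro (⟨t, ht, h⟩ | h)
      · exact vY_ne_vO _ _ _ _ _ _ _ h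
      · exact vY_ne_vO _ _ _ _ _ _ _ h
  -- the second neighbour of a first vertex
  have hsec : ∀ t < 2, ∀ u < 2, t ≠ u → vO t i 0 (true, i) true ∈ S ∨
      vO u i 0 (false, i) true ∈ S := by
    intro t ht u hu htu
    obtain ⟨w, hw, hR, hne⟩ := H.snd (h1 t ht) (vA t i)
    rcases nbrO (H.sub hw) hR with ⟨rfl, -⟩ | ⟨-, h⟩ | rfl | ⟨-, u', hu', hne', rfl⟩ |
      ⟨-, j, hj, p, hp, hcl, rfl⟩
    · exact absurd rfl hne
    · exact absurd h (by simp)
    · exact Or.inl hw
    · have : u' = u := by omega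
      subst this
      exact Or.inr hw
    · exact absurd hw (NC1 j hj p hp hcl)
  have hB1 : ∀ t < 2, vO t i 0 (true, i) true ∈ S → vB t i ∈ S := by
    intro t ht h
    obtain ⟨w, hw, hR, hne⟩ := H.snd h (vO t i 0 (true, i) false)
    rcases nbrO (H.sub hw) hR with ⟨rfl, h⟩ | ⟨rfl, h⟩ | rfl | ⟨h, -⟩ | ⟨h, -⟩
    · exact absurd h (by simp)
    · exact hw
    · exact absurd rfl hne
    · exact absurd rfl h
    · exact absurd rfl h
  have hboth : ∀ t < 2, ∀ u < 2, t ≠ u → vO t i 0 (true, i) true ∈ S →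
      vO u i 0 (true, i) true ∈ S := by
    intro t ht u hu htu h
    by_contra hno
    have hg' : vO t i 0 (false, i) true ∈ S := (hsec u hu t ht htu.symm).resolve_left hno
    have hBt := hB1 t ht h
    refine closing H hi I {x | x = vO t i 0 (true, i) false ∨ x = vO t i 0 (true, i) true ∨
      x = vB t i ∨ x = vO t i 0 (false, i) true ∨ x = vO u i 0 (true, i) false} ?_ ?_ ?_ ?_
    · rintro x (rfl | rfl | rfl | rfl | rfl)
      · exact h1 t ht
      · exact h
      · exact hBt
      · exact hg'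
      · exact h1 u hu
    · intro t' ht' w hw hR'
      rcases h2 t' ht' w hw hR' with hh | hh
      · exact Or.inl hh
      · have : t' = t ∨ t' = u := by omega
        rcases this with rfl | rfl
        · exact Or.inr (Or.inl hh)
        · exact Or.inr (Or.inr (Or.inr (Or.inr (Or.inr hh))))
    · rintro x (rfl | rfl | rfl | rfl | rfl) w hw hR'
      · rcases H.two (h1 t ht) (hA t ht) h (vA_ne_vO _ _ _ _ _ _ _) (R_symm (RAO t i true))
          (ROO t i true) w hw hR' with h | h
        · exact Or.inr ⟨t, ht, h⟩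
        · exact Or.inl (Or.inr (Or.inl h))
      · rcases H.two h (h1 t ht) hBt (vB_ne_vO _ _ _ _ _ _ _).symm (R_symm (ROO t i true))
          (R_symm (RBO t i true)) w hw hR' with h | h
        · exact Or.inl (Or.inl h)
        · exact Or.inl (Or.inr (Or.inr (Or.inl h)))
      · rcases H.two hBt h hg' (by simp [vO]) (RBO t i true) (RBO t i false) w hw hR' with h | h
        · exact Or.inl (Or.inr (Or.inl h))
        · exact Or.inl (Or.inr (Or.inr (Or.inr (Or.inl h))))
      · rcases H.two hg' hBt (h1 u hu) (vB_ne_vO _ _ _ _ _ _ _) (R_symm (RBO t i false))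
          (R_symm (RGO i htu.symm)) w hw hR' with h | h
        · exact Or.inl (Or.inr (Or.inr (Or.inl h)))
        · exact Or.inl (Or.inr (Or.inr (Or.inr (Or.inr h))))
      · rcases H.two (h1 u hu) (hA u hu) hg' (vA_ne_vO _ _ _ _ _ _ _) (R_symm (RAO u i true))
          (RGO i htu.symm) w hw hR' with h | h
        · exact Or.inr ⟨u, hu, h⟩
        · exact Or.inl (Or.inr (Or.inr (Or.inr (Or.inl h))))
    · rintro (h | h | h | h | h)
      · exact vY_ne_vO _ _ _ _ _ _ _ h
      · exact vY_ne_vO _ _ _ _ _ _ _ h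
      · exact vY_ne_vB _ _ _ _ h
      · exact vY_ne_vO _ _ _ _ _ _ _ h
      · exact vY_ne_vO _ _ _ _ _ _ _ h
  by_cases hP : vO 0 i 0 (true, i) true ∈ S
  · have hP' : ∀ t < 2, vO t i 0 (true, i) true ∈ S := by
      intro t ht
      have : t = 0 ∨ t = 1 := by omega
      rcases this with rfl | rfl
      · exact hP
      · exact hboth 0 (by omega) 1 (by omega) (by omega) hP
    have hg' : ∀ t < 2, ∀ u < 2, t ≠ u → vO t i 0 (false, i) true ∉ S := by
      intro t ht u hu htu h
      rcases H.two (h1 u hu) (hA u hu) (hP' u hu) (vA_ne_vO _ _ _ _ _ _ _) (R_symm (RAO u i true))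
        (ROO u i true) _ h (RGO i htu.symm) with h | h
      · exact vA_ne_vO _ _ _ _ _ _ _ h.symm
      · simp [vO] at h
    have hg'' : ∀ t < 2, vO t i 0 (false, i) true ∉ S := by
      intro t ht
      exact hg' t ht (1 - t) (by omega) (by omega)
    refine I.succ H hi (fun t ht => hB1 t ht (hP' t ht)) ?_ ?_ ⟨true, h1⟩
    · intro t ht
      obtain ⟨w, hw, hR, hne⟩ := H.snd (hB1 t ht (hP' t ht)) (vO t i 0 (true, i) true)
      rcases nbrB (H.sub hw) hR with rfl | ⟨b, -, rfl⟩ | ⟨j, hj, p, hp, h, -⟩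
      · exact hw
      · cases b
        · exact absurd hw (hg'' t ht)
        · exact absurd rfl hne
      · omega
    · intro t ht b s hs hsb j hj p hp hcl
      cases b <;> cases s
      · exact absurd rfl hsb
      · exact absurd hs (hg'' t ht)
      · exact NC1 j hj p hp hcl
      · exact absurd rfl hsb
  · have hQ : ∀ t < 2, vO t i 0 (true, i) true ∉ S := by
      intro t ht h
      have : t = 0 ∨ t = 1 := by omega
      rcases this with rfl | rfl
      · exact hP h
      · exact hP (hboth 1 (by omega) 0 (by omega) (by omega) h)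
    have hg' : ∀ t < 2, vO t i 0 (false, i) true ∈ S := by
      intro t ht
      exact (hsec (1 - t) (by omega) t ht (by omega)).resolve_left (hQ _ (by omega))
    have NC2 : ∀ j < m, ∀ p < 3, cl j p = (true, i) →
        vO 1 (n + j) (p + 1) (true, i) false ∉ S := by
      intro j hj p hp hcl hc
      have hR : ∀ t, R (vO t i 0 (false, i) true) (vO 1 (n + j) (p + 1) (true, i) false) :=
        fun t => RCO t i false (n + j) p
      refine closing H hi I {x | (∃ t < 2, x = vO t i 0 (true, i) false) ∨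
        (∃ t < 2, x = vO t i 0 (false, i) true) ∨
        x = vO 1 (n + j) (p + 1) (true, i) false} ?_ ?_ ?_ ?_
      · rintro x (⟨t, ht, rfl⟩ | ⟨t, ht, rfl⟩ | rfl)
        · exact h1 t ht
        · exact hg' t ht
        · exact hc
      · intro t ht w hw hR'
        rcases h2 t ht w hw hR' with h | h
        · exact Or.inl h
        · exact Or.inr (Or.inl ⟨t, ht, h⟩)
      · rintro x (⟨t, ht, rfl⟩ | ⟨t, ht, rfl⟩ | rfl) w hw hR'
        · rcases H.two (h1 t ht) (hA t ht) (hg' (1 - t) (by omega)) (vA_ne_vO _ _ _ _ _ _ _)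
            (R_symm (RAO t i true)) (RGO i (by omega)) w hw hR' with h | h
          · exact Or.inr ⟨t, ht, h⟩
          · exact Or.inl (Or.inr (Or.inl ⟨_, by omega, h⟩))
        · rcases H.two (hg' t ht) (h1 (1 - t) (by omega)) hc (by simp [vO])
            (R_symm (RGO i (by omega))) (hR t) w hw hR' with h | h
          · exact Or.inl (Or.inl ⟨_, by omega, h⟩)
          · exact Or.inl (Or.inr (Or.inr h))
        · rcases H.two hc (hg' 0 (by omega)) (hg' 1 (by omega)) (by simp [vO]) (R_symm (hR 0))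
            (R_symm (hR 1)) w hw hR' with h | h
          · exact Or.inl (Or.inr (Or.inl ⟨0, by omega, h⟩))
          · exact Or.inl (Or.inr (Or.inl ⟨1, by omega, h⟩))
      · rintro (⟨t, ht, h⟩ | ⟨t, ht, h⟩ | h)
        · exact vY_ne_vO _ _ _ _ _ _ _ h
        · exact vY_ne_vO _ _ _ _ _ _ _ h
        · exact vY_ne_vO _ _ _ _ _ _ _ h
    have hB : ∀ t < 2, vB t i ∈ S := by
      intro t ht
      obtain ⟨w, hw, hR, hne⟩ := H.snd (hg' t ht) (vO (1 - t) i 0 (true, i) false)
      rcases nbrO (H.sub hw) hR with ⟨rfl, h⟩ | ⟨rfl, h⟩ | rfl | ⟨-, u', hu', hne', rfl⟩ |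
        ⟨-, j, hj, p, hp, hcl, rfl⟩
      · exact absurd h (by simp)
      · exact hw
      · exact absurd hw (hg t ht)
      · have : u' = 1 - t := by omega
        subst this
        exact absurd rfl hne
      · exact absurd hw (NC2 j hj p hp hcl)
    refine I.succ H hi hB ?_ ?_ ⟨true, h1⟩
    · intro t ht
      obtain ⟨w, hw, hR, hne⟩ := H.snd (hB t ht) (vO t i 0 (false, i) true)
      rcases nbrB (H.sub hw) hR with rfl | ⟨b, -, rfl⟩ | ⟨j, hj, p, hp, h, -⟩
      · exact hw
      · cases b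
        · exact absurd rfl hne
        · exact absurd hw (hQ t ht)
      · omega
    · intro t ht b s hs hsb j hj p hp hcl
      cases b <;> cases s
      · exact absurd rfl hsb
      · exact NC2 j hj p hp hcl
      · exact NC1 j hj p hp hcl
      · exact absurd rfl hsb

/-- both tracks use the negative option -/
theorem Inv.stepFF (H : HoleSet n m cl S) (hi : i < n) (I : Inv n m S i)
    (h1 : ∀ t < 2, vO t i 0 (false, i) false ∈ S)
    (h2 : ∀ t < 2, ∀ w ∈ S, R (vA t i) w → w = pre t i ∨ w = vO t i 0 (false, i) false) :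
    Inv n m S (i + 1) := by
  have hA : ∀ t < 2, vA t i ∈ S := fun t ht => by
    have := I.e t ht
    rwa [ent_of_lt hi] at this
  have ho : ∀ t < 2, vO t i 0 (true, i) false ∉ S := by
    intro t ht h
    rcases h2 t ht _ h (RAO t i true) with h' | h'
    · exact pre_ne_vO _ _ _ _ _ _ _ h'.symm
    · simp [vO] at h'
  have hg' : ∀ t < 2, vO t i 0 (false, i) true ∈ S := by
    intro t ht
    obtain ⟨w, hw, hR, hne⟩ := H.snd (h1 t ht) (vA t i)
    rcases nbrO (H.sub hw) hR with ⟨rfl, -⟩ | ⟨-, h⟩ | rfl | ⟨h, -⟩ | ⟨h, -⟩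
    · exact absurd rfl hne
    · exact absurd h (by simp)
    · exact hw
    · exact absurd rfl h
    · exact absurd rfl h
  have NC2 : ∀ j < m, ∀ p < 3, cl j p = (true, i) →
      vO 1 (n + j) (p + 1) (true, i) false ∉ S := by
    intro j hj p hp hcl hc
    have hR : ∀ t, R (vO t i 0 (false, i) true) (vO 1 (n + j) (p + 1) (true, i) false) :=
      fun t => RCO t i false (n + j) p
    refine closing H hi I {x | (∃ t < 2, x = vO t i 0 (false, i) false) ∨
      (∃ t < 2, x = vO t i 0 (false, i) true) ∨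
      x = vO 1 (n + j) (p + 1) (true, i) false} ?_ ?_ ?_ ?_
    · rintro x (⟨t, ht, rfl⟩ | ⟨t, ht, rfl⟩ | rfl)
      · exact h1 t ht
      · exact hg' t ht
      · exact hc
    · intro t ht w hw hR'
      rcases h2 t ht w hw hR' with h | h
      · exact Or.inl h
      · exact Or.inr (Or.inl ⟨t, ht, h⟩)
    · rintro x (⟨t, ht, rfl⟩ | ⟨t, ht, rfl⟩ | rfl) w hw hR'
      · rcases H.two (h1 t ht) (hA t ht) (hg' t ht) (vA_ne_vO _ _ _ _ _ _ _)
          (R_symm (RAO t i false)) (ROO t i false) w hw hR' with h | h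
        · exact Or.inr ⟨t, ht, h⟩
        · exact Or.inl (Or.inr (Or.inl ⟨_, by omega, h⟩))
      · rcases H.two (hg' t ht) (h1 t ht) hc (by simp [vO])
          (R_symm (ROO t i false)) (hR t) w hw hR' with h | h
        · exact Or.inl (Or.inl ⟨_, by omega, h⟩)
        · exact Or.inl (Or.inr (Or.inr h))
      · rcases H.two hc (hg' 0 (by omega)) (hg' 1 (by omega)) (by simp [vO]) (R_symm (hR 0))
          (R_symm (hR 1)) w hw hR' with h | h
        · exact Or.inl (Or.inr (Or.inl ⟨0, by omega, h⟩))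
        · exact Or.inl (Or.inr (Or.inl ⟨1, by omega, h⟩))
    · rintro (⟨t, ht, h⟩ | ⟨t, ht, h⟩ | h)
      · exact vY_ne_vO _ _ _ _ _ _ _ h
      · exact vY_ne_vO _ _ _ _ _ _ _ h
      · exact vY_ne_vO _ _ _ _ _ _ _ h
  have hB : ∀ t < 2, vB t i ∈ S := by
    intro t ht
    obtain ⟨w, hw, hR, hne⟩ := H.snd (hg' t ht) (vO t i 0 (false, i) false)
    rcases nbrO (H.sub hw) hR with ⟨rfl, h⟩ | ⟨rfl, h⟩ | rfl | ⟨-, u', hu', hne', rfl⟩ |
      ⟨-, j, hj, p, hp, hcl, rfl⟩
    · exact absurd h (by simp)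
    · exact hw
    · exact absurd rfl hne
    · exact absurd hw (ho u' hu')
    · exact absurd hw (NC2 j hj p hp hcl)
  refine I.succ H hi hB ?_ ?_ ⟨false, hg'⟩
  · intro t ht
    obtain ⟨w, hw, hR, hne⟩ := H.snd (hB t ht) (vO t i 0 (false, i) true)
    rcases nbrB (H.sub hw) hR with rfl | ⟨b, -, rfl⟩ | ⟨j, hj, p, hp, h, -⟩
    · exact hw
    · cases b
      · exact absurd rfl hne
      · exfalso
        obtain ⟨w', hw', hR', hne'⟩ := H.snd hw (vB t i)
        rcases nbrO (H.sub hw') hR' with ⟨rfl, h⟩ | ⟨rfl, h⟩ | rfl | ⟨h, -⟩ | ⟨h, -⟩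
        · exact absurd h (by simp)
        · exact absurd rfl hne'
        · exact ho t ht hw'
        · exact absurd rfl h
        · exact absurd rfl h
    · omega
  · intro t ht b s hs hsb j hj p hp hcl
    cases b <;> cases s
    · exact absurd rfl hsb
    · exact NC2 j hj p hp hcl
    · exact absurd hs (ho t ht)
    · exact absurd rfl hsb

/-- the tracks use opposite options -/
theorem Inv.stepTF (H : HoleSet n m cl S) (hi : i < n) (I : Inv n m S i) {t u : ℕ} (ht : t < 2)
    (hu : u < 2) (htu : t ≠ u)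
    (h1 : vO t i 0 (true, i) false ∈ S)
    (h1' : vO u i 0 (false, i) false ∈ S)
    (h2 : ∀ w ∈ S, R (vA t i) w → w = pre t i ∨ w = vO t i 0 (true, i) false)
    (h2' : ∀ w ∈ S, R (vA u i) w → w = pre u i ∨ w = vO u i 0 (false, i) false) :
    False := by
  have hA : ∀ t < 2, vA t i ∈ S := fun t ht => by
    have := I.e t ht
    rwa [ent_of_lt hi] at this
  have hg' : vO u i 0 (false, i) true ∈ S := by
    obtain ⟨w, hw, hR, hne⟩ := H.snd h1' (vA u i)
    rcases nbrO (H.sub hw) hR with ⟨rfl, -⟩ | ⟨-, h⟩ | rfl | ⟨h, -⟩ | ⟨h, -⟩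
    · exact absurd rfl hne
    · exact absurd h (by simp)
    · exact hw
    · exact absurd rfl h
    · exact absurd rfl h
  refine closing H hi I {x | x = vO t i 0 (true, i) false ∨ x = vO u i 0 (false, i) false ∨
    x = vO u i 0 (false, i) true} ?_ ?_ ?_ ?_
  · rintro x (rfl | rfl | rfl)
    · exact h1
    · exact h1'
    · exact hg'
  · intro t' ht' w hw hR'
    have : t' = t ∨ t' = u := by omega
    rcases this with rfl | rfl
    · rcases h2 w hw hR' with h | h
      · exact Or.inl h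
      · exact Or.inr (Or.inl h)
    · rcases h2' w hw hR' with h | h
      · exact Or.inl h
      · exact Or.inr (Or.inr (Or.inl h))
  · rintro x (rfl | rfl | rfl) w hw hR'
    · rcases H.two h1 (hA t ht) hg' (vA_ne_vO _ _ _ _ _ _ _) (R_symm (RAO t i true))
        (RGO i htu) w hw hR' with h | h
      · exact Or.inr ⟨t, ht, h⟩
      · exact Or.inl (Or.inr (Or.inr h))
    · rcases H.two h1' (hA u hu) hg' (vA_ne_vO _ _ _ _ _ _ _) (R_symm (RAO u i false))
        (ROO u i false) w hw hR' with h | h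
      · exact Or.inr ⟨u, hu, h⟩
      · exact Or.inl (Or.inr (Or.inr h))
    · rcases H.two hg' h1' h1 (by simp [vO]) (R_symm (ROO u i false))
        (R_symm (RGO i htu)) w hw hR' with h | h
      · exact Or.inl (Or.inr (Or.inl h))
      · exact Or.inl (Or.inl h)
  · rintro (h | h | h)
    · exact vY_ne_vO _ _ _ _ _ _ _ h
    · exact vY_ne_vO _ _ _ _ _ _ _ h
    · exact vY_ne_vO _ _ _ _ _ _ _ h

/-- The induction step. -/
theorem Inv.step (H : HoleSet n m cl S) (hi : i < n) (I : Inv n m S i) : Inv n m S (i + 1) := by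
  obtain ⟨b0, h0, h0'⟩ := I.option H hi 0 (by omega)
  obtain ⟨b1, h1, h1'⟩ := I.option H hi 1 (by omega)
  cases b0 <;> cases b1
  · refine I.stepFF H hi ?_ ?_
    · intro t ht
      have : t = 0 ∨ t = 1 := by omega
      rcases this with rfl | rfl <;> assumption
    · intro t ht
      have : t = 0 ∨ t = 1 := by omega
      rcases this with rfl | rfl <;> assumption
  · exact (I.stepTF H hi (t := 1) (u := 0) (by omega) (by omega) (by omega) h1 h0 h1' h0').elim
  · exact (I.stepTF H hi (t := 0) (u := 1) (by omega) (by omega) (by omega) h0 h1 h0' h1').elim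
  · refine I.stepTT H hi ?_ ?_
    · intro t ht
      have : t = 0 ∨ t = 1 := by omega
      rcases this with rfl | rfl <;> assumption
    · intro t ht
      have : t = 0 ∨ t = 1 := by omega
      rcases this with rfl | rfl <;> assumption

/-- The start of the induction. -/
theorem Inv.zero (H : HoleSet n m cl S) (hn : 0 < n) : Inv n m S 0 := by
  have hAA : vA 0 0 ∈ S ∧ vA 1 0 ∈ S := by
    obtain ⟨a, ha, b, hb, hab, hRa, hRb, -⟩ := H.deg vX H.hX
    rcases nbrX (H.sub ha) hRa with rfl | rfl <;> rcases nbrX (H.sub hb) hRb with rfl | rfl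
    · exact absurd rfl hab
    · exact ⟨ha, hb⟩
    · exact ⟨hb, ha⟩
    · exact absurd rfl hab
  refine ⟨?_, ?_, ?_, fun j hj => absurd hj (by omega)⟩
  · intro t ht
    rw [ent_of_lt hn]
    have : t = 0 ∨ t = 1 := by omega
    rcases this with rfl | rfl
    · exact hAA.1
    · exact hAA.2
  · intro t ht
    exact H.hX
  · rintro v ⟨hv, hv'⟩ w hw hvw
    rcases hv' with rfl | ⟨t, j, hj, h⟩
    · right
      rcases nbrX (H.sub hw) hvw with rfl | rfl
      · exact ⟨0, by omega, (ent_of_lt hn).symm⟩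
      · exact ⟨1, by omega, (ent_of_lt hn).symm⟩
    · omega

theorem Inv.all (H : HoleSet n m cl S) (hn : 0 < n) : ∀ i ≤ n, Inv n m S i := by
  intro i
  induction i with
  | zero => exact fun _ => Inv.zero H hn
  | succ i ih => exact fun hi => (ih (by omega)).step H (by omega)

end Pool.Agent.H530R3.Hole
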